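import Mathlib

/-!
Sets which are null on all translates of finite-dimensional subspaces are Aronszajn null.
-/

namespace Pool.Agent.NSD

open MeasureTheory Filter Topology

variable {H : Type*} [NormedAddCommGroup H] [NormedSpace ℝ H] [MeasurableSpace H] [BorelSpace H]

theorem cons_quasi (d : ℕ) :
    Measure.QuasiMeasurePreserving
      (fun p : (Fin d → ℝ) × ℝ => (Fin.cons p.2 p.1 : Fin (d + 1) → ℝ)) volume volume := by
  have h1 : MeasurePreserving (MeasurableEquiv.piFinSuccAbove (fun _ : Fin (d + 1) => ℝ) 0) :=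
    volume_preserving_piFinSuccAbove (fun _ => ℝ) 0
  have h2 : MeasurePreserving (Prod.swap : (Fin d → ℝ) × ℝ → ℝ × (Fin d → ℝ)) volume volume :=
    Measure.measurePreserving_swap
  have h3 := (h1.symm _).comp h2
  have h4 : (fun p : (Fin d → ℝ) × ℝ => (Fin.cons p.2 p.1 : Fin (d + 1) → ℝ))
      = (MeasurableEquiv.piFinSuccAbove (fun _ : Fin (d + 1) => ℝ) 0).symm ∘ Prod.swap := by
    funext p
    have h5 : (MeasurableEquiv.piFinSuccAbove (fun _ : Fin (d + 1) => ℝ) 0).symm (p.2, p.1)
        = (Fin.insertNthEquiv (fun _ : Fin (d + 1) => ℝ) 0) (p.2, p.1) := rfl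
    have h6 : ((MeasurableEquiv.piFinSuccAbove (fun _ : Fin (d + 1) => ℝ) 0).symm ∘ Prod.swap) p
        = (MeasurableEquiv.piFinSuccAbove (fun _ : Fin (d + 1) => ℝ) 0).symm (p.2, p.1) := rfl
    rw [h6, h5]
    simp
    rfl
  rw [h4]
  exact h3.quasiMeasurePreserving

theorem measurableSet_null_section (w : H) {E : Set H} (hE : MeasurableSet E) :
    MeasurableSet {x : H | volume {t : ℝ | x + t • w ∈ E} = 0} := by
  have h1 : MeasurableSet {p : H × ℝ | p.1 + p.2 • w ∈ E} := by
    have hc : Continuous fun p : H × ℝ => p.1 + p.2 • w := by fun_prop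
    exact hc.measurable hE
  have h2 := measurable_measure_prodMk_left (ν := (volume : Measure ℝ)) h1
  exact h2 (measurableSet_singleton 0)

theorem decompose (d : ℕ) (w : Fin d → H) (E : Set H) (hE : MeasurableSet E)
    (hnull : ∀ x, ∀ᵐ ξ : Fin d → ℝ, x + ∑ i, ξ i • w i ∉ E) :
    ∃ F : Fin d → Set H, (∀ i, MeasurableSet (F i)) ∧ E = ⋃ i, F i ∧
      ∀ i x, volume {t : ℝ | x + t • w i ∈ F i} = 0 := by
  induction d generalizing E with
  | zero =>
    refine ⟨fun i => i.elim0, fun i => i.elim0, ?_, fun i => i.elim0⟩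
    ext x
    simp only [Set.mem_iUnion, IsEmpty.exists_iff, iff_false]
    intro hx
    obtain ⟨ξ, hξ⟩ := (hnull x).exists
    simp at hξ
    exact hξ hx
  | succ d ih =>
    set G : Set H := {x : H | volume {t : ℝ | x + t • w 0 ∈ E} = 0} with hG
    have hGm : MeasurableSet G := measurableSet_null_section (w 0) hE
    have h1 : ∀ x, ∀ᵐ ξ : Fin d → ℝ, x + ∑ i, ξ i • w i.succ ∉ E \ G := by
      intro x
      have h2 := (cons_quasi d).ae (hnull x)
      have h3 := Measure.ae_ae_of_ae_prod h2
      filter_upwards [h3] with ξ hξ hcon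
      apply hcon.2
      change volume {t : ℝ | x + ∑ i, ξ i • w i.succ + t • w 0 ∈ E} = 0
      have h4 : ∀ᵐ t : ℝ, ¬ (x + ∑ i, ξ i • w i.succ + t • w 0 ∈ E) := by
        filter_upwards [hξ] with t ht
        rw [Fin.sum_univ_succ] at ht
        simp only [Fin.cons_zero, Fin.cons_succ] at ht
        rw [add_assoc, add_comm (∑ i, ξ i • w i.succ)]
        exact ht
      have h5 := ae_iff.mp h4
      simpa using h5
    obtain ⟨F, hF1, hF2, hF3⟩ := ih (fun i => w i.succ) (E \ G) (hE.diff hGm) h1
    refine ⟨Fin.cons (E ∩ G) F, ?_, ?_, ?_⟩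
    · intro i
      refine Fin.cases ?_ (fun j => ?_) i
      · exact hE.inter hGm
      · exact hF1 j
    · have h6 : ⋃ i, (Fin.cons (E ∩ G) F : Fin (d + 1) → Set H) i = (E ∩ G) ∪ ⋃ i, F i := by
        ext x
        simp only [Set.mem_iUnion, Set.mem_union, Fin.exists_fin_succ, Fin.cons_zero,
          Fin.cons_succ]
      rw [h6, ← hF2]
      exact (Set.inter_union_sdiff E G).symm
    · intro i x
      refine Fin.cases ?_ (fun j => ?_) i
      · simp only [Fin.cons_zero]
        by_cases hex : ∃ t₀ : ℝ, x + t₀ • w 0 ∈ E ∩ G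
        · obtain ⟨t₀, -, ht₀⟩ := hex
          have h7 : volume {t : ℝ | x + t₀ • w 0 + t • w 0 ∈ E} = 0 := ht₀
          have h8 : {t : ℝ | x + t • w 0 ∈ E ∩ G}
              ⊆ (fun t => -t₀ + t) ⁻¹' {t : ℝ | x + t₀ • w 0 + t • w 0 ∈ E} := by
            intro t ht
            change x + t₀ • w 0 + (-t₀ + t) • w 0 ∈ E
            have : x + t₀ • w 0 + (-t₀ + t) • w 0 = x + t • w 0 := by module
            rw [this]
            exact ht.1
          refine measure_mono_null h8 ?_
          rw [measure_preimage_add]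
          exact h7
        · have h9 : {t : ℝ | x + t • w 0 ∈ E ∩ G} = ∅ := by
            ext t
            simp only [Set.mem_ofPred_eq, Set.mem_empty_iff_false, iff_false]
            exact fun h => hex ⟨t, h⟩
          rw [h9, measure_empty]
      · simp only [Fin.cons_succ]
        exact hF3 j x

end Pool.Agent.NSD
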