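import Mathlib

/-!
Infinite compositions of bi-Lipschitz homeomorphisms close to the identity.
-/

namespace Pool.Agent.NSD

open Filter Topology

variable {H : Type*} [NormedAddCommGroup H]

/-- `fwd T k n = T k ∘ T (k+1) ∘ ... ∘ T (k+n-1)`. -/
def fwd (T : ℕ → H → H) (k : ℕ) : ℕ → H → H
  | 0, x => x
  | n + 1, x => fwd T k n (T (k + n) x)

/-- `bwd S k n = S (k+n-1) ∘ ... ∘ S (k+1) ∘ S k`. -/
def bwd (S : ℕ → H → H) (k : ℕ) : ℕ → H → H
  | 0, y => y
  | n + 1, y => S (k + n) (bwd S k n y)

theorem fwd_succ (T : ℕ → H → H) (k n : ℕ) (x : H) :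
    fwd T k (n + 1) x = T k (fwd T (k + 1) n x) := by
  induction n generalizing x with
  | zero => simp [fwd]
  | succ n ih =>
    have h1 : fwd T k (n + 1 + 1) x = fwd T k (n + 1) (T (k + (n + 1)) x) := rfl
    have h2 : fwd T (k + 1) (n + 1) x = fwd T (k + 1) n (T (k + 1 + n) x) := rfl
    rw [h1, h2, ih]
    have h3 : k + (n + 1) = k + 1 + n := by omega
    rw [h3]

theorem bwd_succ (S : ℕ → H → H) (k n : ℕ) (y : H) :
    bwd S k (n + 1) y = bwd S (k + 1) n (S k y) := by
  induction n with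
  | zero => simp [bwd]
  | succ n ih =>
    have h1 : bwd S k (n + 1 + 1) y = S (k + (n + 1)) (bwd S k (n + 1) y) := rfl
    have h2 : bwd S (k + 1) (n + 1) (S k y) = S (k + 1 + n) (bwd S (k + 1) n (S k y)) := rfl
    rw [h1, h2, ih]
    have h3 : k + (n + 1) = k + 1 + n := by omega
    rw [h3]

/-- The data of a sequence of bi-Lipschitz maps converging fast to the identity. -/
structure Tower (T S : ℕ → H → H) (a d : ℕ → ℝ) (L : ℝ) : Prop where
  left : ∀ n x, S n (T n x) = x
  right : ∀ n x, T n (S n x) = x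
  lipT : ∀ n x y, ‖T n x - T n y‖ ≤ (1 + a n) * ‖x - y‖
  lipS : ∀ n x y, ‖S n x - S n y‖ ≤ (1 + a n) * ‖x - y‖
  dispT : ∀ n x, ‖T n x - x‖ ≤ d n
  dispS : ∀ n x, ‖S n x - x‖ ≤ d n
  a_nonneg : ∀ n, 0 ≤ a n
  prod_le : ∀ k n, ∏ i ∈ Finset.range n, (1 + a (k + i)) ≤ L
  summ : Summable d

namespace Tower

variable {T S : ℕ → H → H} {a d : ℕ → ℝ} {L : ℝ}

theorem d_nonneg (h : Tower T S a d L) (n : ℕ) : 0 ≤ d n :=
  (norm_nonneg _).trans (h.dispT n 0)

theorem one_le (h : Tower T S a d L) : 1 ≤ L := by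
  simpa using h.prod_le 0 0

theorem fwd_lip (h : Tower T S a d L) (k n : ℕ) (x y : H) :
    ‖fwd T k n x - fwd T k n y‖ ≤ L * ‖x - y‖ := by
  have key : ‖fwd T k n x - fwd T k n y‖
      ≤ (∏ i ∈ Finset.range n, (1 + a (k + i))) * ‖x - y‖ := by
    induction n generalizing x y with
    | zero => simp [fwd]
    | succ n ih =>
      rw [Finset.prod_range_succ]
      refine (ih _ _).trans ?_
      rw [mul_assoc]
      exact mul_le_mul_of_nonneg_left (h.lipT _ _ _)
        (Finset.prod_nonneg fun i _ => by linarith [h.a_nonneg (k + i)])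
  exact key.trans (mul_le_mul_of_nonneg_right (h.prod_le k n) (norm_nonneg _))

theorem bwd_lip (h : Tower T S a d L) (k n : ℕ) (x y : H) :
    ‖bwd S k n x - bwd S k n y‖ ≤ L * ‖x - y‖ := by
  have key : ‖bwd S k n x - bwd S k n y‖
      ≤ (∏ i ∈ Finset.range n, (1 + a (k + i))) * ‖x - y‖ := by
    induction n with
    | zero => simp [bwd]
    | succ n ih =>
      rw [Finset.prod_range_succ]
      have h1 : ‖bwd S k (n + 1) x - bwd S k (n + 1) y‖
          ≤ (1 + a (k + n)) * ‖bwd S k n x - bwd S k n y‖ := h.lipS _ _ _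
      refine h1.trans ?_
      have h2 := mul_le_mul_of_nonneg_left ih (show 0 ≤ 1 + a (k + n) by
        linarith [h.a_nonneg (k + n)])
      linarith
  exact key.trans (mul_le_mul_of_nonneg_right (h.prod_le k n) (norm_nonneg _))

theorem fwd_bwd (h : Tower T S a d L) (k n : ℕ) (y : H) : fwd T k n (bwd S k n y) = y := by
  induction n with
  | zero => rfl
  | succ n ih =>
    change fwd T k n (T (k + n) (S (k + n) (bwd S k n y))) = y
    rw [h.right, ih]

theorem bwd_fwd (h : Tower T S a d L) (k n : ℕ) (x : H) : bwd S k n (fwd T k n x) = x := by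
  induction n generalizing x with
  | zero => rfl
  | succ n ih =>
    change S (k + n) (bwd S k n (fwd T k n (T (k + n) x))) = x
    rw [ih, h.left]

theorem fwd_disp (h : Tower T S a d L) (k n : ℕ) (x : H) :
    ‖fwd T k n x - x‖ ≤ ∑ i ∈ Finset.range n, d (k + i) := by
  induction n generalizing x with
  | zero => simp [fwd]
  | succ n ih =>
    rw [Finset.sum_range_succ]
    have h1 : fwd T k (n + 1) x - x = (fwd T k n (T (k + n) x) - T (k + n) x)
        + (T (k + n) x - x) := by
      change fwd T k n (T (k + n) x) - x = _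
      abel
    rw [h1]
    exact (norm_add_le _ _).trans (add_le_add (ih _) (h.dispT _ _))

theorem bwd_disp (h : Tower T S a d L) (k n : ℕ) (y : H) :
    ‖bwd S k n y - y‖ ≤ ∑ i ∈ Finset.range n, d (k + i) := by
  induction n with
  | zero => simp [bwd]
  | succ n ih =>
    rw [Finset.sum_range_succ]
    have h1 : bwd S k (n + 1) y - y = (S (k + n) (bwd S k n y) - bwd S k n y)
        + (bwd S k n y - y) := by
      change S (k + n) (bwd S k n y) - y = _
      abel
    rw [h1, add_comm (∑ i ∈ Finset.range n, d (k + i))]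
    exact (norm_add_le _ _).trans (add_le_add (h.dispS _ _) ih)

theorem summ_shift (h : Tower T S a d L) (k : ℕ) : Summable fun i => d (k + i) := by
  have := (summable_nat_add_iff k).mpr h.summ
  simpa [add_comm] using this

theorem fwd_cauchy [CompleteSpace H] (h : Tower T S a d L) (k : ℕ) (x : H) :
    ∃ z, Tendsto (fun n => fwd T k n x) atTop (𝓝 z) := by
  apply cauchySeq_tendsto_of_complete
  refine cauchySeq_of_dist_le_of_summable (fun n => L * d (k + n)) (fun n => ?_)
    ((h.summ_shift k).mul_left L)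
  rw [dist_comm, dist_eq_norm]
  change ‖fwd T k n (T (k + n) x) - fwd T k n x‖ ≤ _
  exact (h.fwd_lip k n _ _).trans
    (mul_le_mul_of_nonneg_left (h.dispT _ _) (zero_le_one.trans h.one_le))

theorem bwd_cauchy [CompleteSpace H] (h : Tower T S a d L) (k : ℕ) (y : H) :
    ∃ z, Tendsto (fun n => bwd S k n y) atTop (𝓝 z) := by
  apply cauchySeq_tendsto_of_complete
  refine cauchySeq_of_dist_le_of_summable (fun n => d (k + n)) (fun n => ?_) (h.summ_shift k)
  rw [dist_comm, dist_eq_norm]
  exact h.dispS _ _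

/-- The limit maps. -/
theorem limits [CompleteSpace H] (h : Tower T S a d L) :
    ∃ X Y : ℕ → H → H,
      (∀ k x y, ‖X k x - X k y‖ ≤ L * ‖x - y‖) ∧
      (∀ k x y, ‖Y k x - Y k y‖ ≤ L * ‖x - y‖) ∧
      (∀ k y, X k (Y k y) = y) ∧ (∀ k x, Y k (X k x) = x) ∧
      (∀ k x, X k x = T k (X (k + 1) x)) ∧
      (∀ k x, ‖X k x - x‖ ≤ ∑' i, d (k + i)) ∧
      (∀ k y, ‖Y k y - y‖ ≤ ∑' i, d (k + i)) ∧
      (∀ k x, Tendsto (fun n => fwd T k n x) atTop (𝓝 (X k x))) := by
  choose X hX using h.fwd_cauchy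
  choose Y hY using h.bwd_cauchy
  have hcont : ∀ n, Continuous (T n) := by
    intro n
    refine LipschitzWith.continuous (K := ⟨1 + a n, by linarith [h.a_nonneg n]⟩) ?_
    refine LipschitzWith.of_dist_le_mul fun x y => ?_
    rw [dist_eq_norm, dist_eq_norm]
    exact h.lipT n x y
  refine ⟨X, Y, ?_, ?_, ?_, ?_, ?_, ?_, ?_, hX⟩
  · intro k x y
    exact le_of_tendsto ((hX k x).sub (hX k y)).norm
      (Eventually.of_forall fun n => h.fwd_lip k n x y)
  · intro k x y
    exact le_of_tendsto ((hY k x).sub (hY k y)).norm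
      (Eventually.of_forall fun n => h.bwd_lip k n x y)
  · intro k y
    have h1 : Tendsto (fun n => fwd T k n (Y k y) - fwd T k n (bwd S k n y)) atTop (𝓝 0) := by
      rw [tendsto_zero_iff_norm_tendsto_zero]
      have h2 : Tendsto (fun n => L * ‖Y k y - bwd S k n y‖) atTop (𝓝 0) := by
        have := ((tendsto_const_nhds (x := Y k y)).sub (hY k y)).norm.const_mul L
        simpa using this
      exact squeeze_zero (fun n => norm_nonneg _) (fun n => h.fwd_lip k n _ _) h2
    have h3 := (hX k (Y k y)).sub h1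
    simp only [sub_sub_cancel, sub_zero, h.fwd_bwd] at h3
    exact tendsto_nhds_unique h3 tendsto_const_nhds |>.symm ▸ rfl
  · intro k x
    have h1 : Tendsto (fun n => bwd S k n (X k x) - bwd S k n (fwd T k n x)) atTop (𝓝 0) := by
      rw [tendsto_zero_iff_norm_tendsto_zero]
      have h2 : Tendsto (fun n => L * ‖X k x - fwd T k n x‖) atTop (𝓝 0) := by
        have := ((tendsto_const_nhds (x := X k x)).sub (hX k x)).norm.const_mul L
        simpa using this
      exact squeeze_zero (fun n => norm_nonneg _) (fun n => h.bwd_lip k n _ _) h2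
    have h3 := (hY k (X k x)).sub h1
    simp only [sub_sub_cancel, sub_zero, h.bwd_fwd] at h3
    exact (tendsto_nhds_unique h3 tendsto_const_nhds)
  · intro k x
    have h1 : Tendsto (fun n => fwd T k (n + 1) x) atTop (𝓝 (X k x)) :=
      (tendsto_add_atTop_iff_nat 1).mpr (hX k x)
    have h2 : Tendsto (fun n => T k (fwd T (k + 1) n x)) atTop (𝓝 (T k (X (k + 1) x))) :=
      ((hcont k).tendsto _).comp (hX (k + 1) x)
    simp only [fwd_succ] at h1
    exact tendsto_nhds_unique h1 h2
  · intro k x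
    refine le_of_tendsto ((hX k x).sub tendsto_const_nhds).norm
      (Eventually.of_forall fun n => (h.fwd_disp k n x).trans ?_)
    exact (h.summ_shift k).sum_le_tsum _ (fun i _ => h.d_nonneg _)
  · intro k y
    refine le_of_tendsto ((hY k y).sub tendsto_const_nhds).norm
      (Eventually.of_forall fun n => (h.bwd_disp k n y).trans ?_)
    exact (h.summ_shift k).sum_le_tsum _ (fun i _ => h.d_nonneg _)

end Tower

end Pool.Agent.NSD
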