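import Mathlib

/-!
Scales and cut-off functions.
-/

namespace Pool.Agent.NSD

/-- The inverse mesh size at level `k`. -/
noncomputable def pw (k : ℕ) : ℝ := 2 ^ (2 ^ (k + 4))

theorem pw_pos (k : ℕ) : 0 < pw k := by unfold pw; positivity

theorem one_le_pw (k : ℕ) : 1 ≤ pw k := one_le_pow₀ (by norm_num)

theorem pw_succ (k : ℕ) : pw (k + 1) = pw k * pw k := by
  unfold pw
  rw [← pow_add]
  congr 1
  ring

theorem pw_cast (k : ℕ) : pw k = ((2 ^ (2 ^ (k + 4)) : ℤ) : ℝ) := by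
  unfold pw
  push_cast
  rfl

/-- Distance to the nearest integer. -/
noncomputable def dI (t : ℝ) : ℝ := |t - round t|

theorem dI_nonneg (t : ℝ) : 0 ≤ dI t := abs_nonneg _

theorem dI_le (t : ℝ) (n : ℤ) : dI t ≤ |t - n| := round_le t n

theorem dI_le_add (s t : ℝ) : dI s ≤ |s - t| + dI t := by
  refine (dI_le s (round t)).trans ?_
  have : s - (round t : ℝ) = (s - t) + (t - round t) := by ring
  rw [this]
  exact abs_add_le _ _

theorem abs_dI_sub_dI (s t : ℝ) : |dI s - dI t| ≤ |s - t| := by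
  rw [abs_le]
  have h1 := dI_le_add s t
  have h2 := dI_le_add t s
  rw [abs_sub_comm] at h2
  constructor <;> linarith

/-- If the integer parts of `N * s` and `N * t` differ, an integer lies between them. -/
theorem exists_int_between {s t : ℝ} (h : ⌊s⌋ ≠ ⌊t⌋) :
    ∃ n : ℤ, |s - n| + |t - n| = |s - t| := by
  wlog hst : ⌊s⌋ < ⌊t⌋ generalizing s t with H
  · obtain ⟨n, hn⟩ := H (s := t) (t := s) h.symm (lt_of_le_of_ne (not_lt.mp hst) h.symm)
    exact ⟨n, by rw [add_comm, hn, abs_sub_comm]⟩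
  refine ⟨⌊t⌋, ?_⟩
  have h1 : s < ⌊t⌋ := by
    have h2 : s < ⌊s⌋ + 1 := Int.lt_floor_add_one s
    have h3 : (⌊s⌋ : ℝ) + 1 ≤ ⌊t⌋ := by exact_mod_cast hst
    linarith
  have h4 : (⌊t⌋ : ℝ) ≤ t := Int.floor_le t
  rw [abs_of_neg (by linarith), abs_of_nonneg (by linarith), abs_of_neg (by linarith)]
  ring

/-- The smallest distance of the scaled coordinates to the integers. -/
noncomputable def DD (k : ℕ) (σ : Fin 5 → ℝ) : ℝ :=
  Finset.univ.inf' ⟨0, Finset.mem_univ _⟩ (fun i => dI (pw (k + 1) * σ i))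

theorem DD_le (k : ℕ) (σ : Fin 5 → ℝ) (i : Fin 5) : DD k σ ≤ dI (pw (k + 1) * σ i) :=
  Finset.inf'_le _ (Finset.mem_univ i)

theorem le_DD {k : ℕ} {σ : Fin 5 → ℝ} {b : ℝ} (h : ∀ i, b ≤ dI (pw (k + 1) * σ i)) :
    b ≤ DD k σ :=
  Finset.le_inf' _ _ (fun i _ => h i)

theorem DD_nonneg (k : ℕ) (σ : Fin 5 → ℝ) : 0 ≤ DD k σ :=
  le_DD fun _ => dI_nonneg _

theorem DD_le_add (k : ℕ) (σ τ : Fin 5 → ℝ) (M : ℝ) (h : ∀ i, |σ i - τ i| ≤ M) :
    DD k σ ≤ DD k τ + pw (k + 1) * M := by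
  have h1 : DD k σ - pw (k + 1) * M ≤ DD k τ := by
    apply le_DD
    intro i
    have h2 := DD_le k σ i
    have h3 := dI_le_add (pw (k + 1) * σ i) (pw (k + 1) * τ i)
    have h4 : |pw (k + 1) * σ i - pw (k + 1) * τ i| ≤ pw (k + 1) * M := by
      rw [← mul_sub, abs_mul, abs_of_pos (pw_pos _)]
      exact mul_le_mul_of_nonneg_left (h i) (pw_pos _).le
    linarith
  linarith

theorem abs_DD_sub (k : ℕ) (σ τ : Fin 5 → ℝ) (M : ℝ) (h : ∀ i, |σ i - τ i| ≤ M) :
    |DD k σ - DD k τ| ≤ pw (k + 1) * M := by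
  rw [abs_le]
  have h1 := DD_le_add k σ τ M h
  have h2 := DD_le_add k τ σ M (fun i => by rw [abs_sub_comm]; exact h i)
  constructor <;> linarith

/-- The cell of a point. -/
noncomputable def cell (k : ℕ) (σ : Fin 5 → ℝ) : Fin 5 → ℤ := fun i => ⌊pw k * σ i⌋

/-- Two points in different cells are separated by a point where the cut-off vanishes. -/
theorem DD_add_DD_of_cell_ne (k : ℕ) (σ τ : Fin 5 → ℝ) (M : ℝ) (h : ∀ i, |σ i - τ i| ≤ M)
    (hne : cell k σ ≠ cell k τ ∨ cell (k + 1) σ ≠ cell (k + 1) τ) :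
    DD k σ + DD k τ ≤ pw (k + 1) * M := by
  have key : ∃ i, ∃ n : ℤ, |pw (k + 1) * σ i - n| + |pw (k + 1) * τ i - n|
      = |pw (k + 1) * σ i - pw (k + 1) * τ i| := by
    rcases hne with hne | hne
    · obtain ⟨i, hi⟩ := Function.ne_iff.mp hne
      obtain ⟨n, hn⟩ := exists_int_between hi
      refine ⟨i, 2 ^ (2 ^ (k + 4)) * n, ?_⟩
      have e1 : ∀ r : ℝ, |pw (k + 1) * r - ((2 ^ (2 ^ (k + 4)) * n : ℤ) : ℝ)|
          = pw k * |pw k * r - n| := by
        intro r
        have : pw (k + 1) * r - ((2 ^ (2 ^ (k + 4)) * n : ℤ) : ℝ) = pw k * (pw k * r - n) := by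
          rw [pw_succ, Int.cast_mul, ← pw_cast]
          ring
        rw [this, abs_mul, abs_of_pos (pw_pos k)]
      rw [e1, e1, ← mul_add, hn]
      have e2 : pw (k + 1) * σ i - pw (k + 1) * τ i = pw k * (pw k * σ i - pw k * τ i) := by
        rw [pw_succ]
        ring
      rw [e2, abs_mul (pw k), abs_of_pos (pw_pos k)]
    · obtain ⟨i, hi⟩ := Function.ne_iff.mp hne
      obtain ⟨n, hn⟩ := exists_int_between hi
      exact ⟨i, n, hn⟩
  obtain ⟨i, n, hn⟩ := key
  have h1 := (DD_le k σ i).trans (dI_le _ n)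
  have h2 := (DD_le k τ i).trans (dI_le _ n)
  have h3 : |pw (k + 1) * σ i - pw (k + 1) * τ i| ≤ pw (k + 1) * M := by
    rw [← mul_sub, abs_mul, abs_of_pos (pw_pos _)]
    exact mul_le_mul_of_nonneg_left (h i) (pw_pos _).le
  linarith

/-- The width of the boundary layers. -/
noncomputable def bet (k : ℕ) : ℝ := (1 / 2) ^ k

theorem bet_pos (k : ℕ) : 0 < bet k := by unfold bet; positivity

/-- The cut-off function. -/
noncomputable def lam (k : ℕ) (σ : Fin 5 → ℝ) : ℝ := min 1 (DD k σ / bet k)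

theorem lam_nonneg (k : ℕ) (σ : Fin 5 → ℝ) : 0 ≤ lam k σ :=
  le_min zero_le_one (div_nonneg (DD_nonneg k σ) (bet_pos k).le)

theorem lam_le_one (k : ℕ) (σ : Fin 5 → ℝ) : lam k σ ≤ 1 := min_le_left _ _

theorem lam_le (k : ℕ) (σ : Fin 5 → ℝ) : lam k σ ≤ DD k σ / bet k := min_le_right _ _

theorem lam_eq_one {k : ℕ} {σ : Fin 5 → ℝ} (h : ∀ i, bet k ≤ dI (pw (k + 1) * σ i)) :
    lam k σ = 1 := by
  apply min_eq_left
  rw [one_le_div (bet_pos k)]
  exact le_DD h

theorem abs_lam_sub (k : ℕ) (σ τ : Fin 5 → ℝ) (M : ℝ) (h : ∀ i, |σ i - τ i| ≤ M) :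
    |lam k σ - lam k τ| ≤ pw (k + 1) * M / bet k := by
  have h1 := abs_DD_sub k σ τ M h
  have h2 : |DD k σ / bet k - DD k τ / bet k| ≤ pw (k + 1) * M / bet k := by
    rw [← sub_div, abs_div, abs_of_pos (bet_pos k)]
    exact div_le_div_of_nonneg_right h1 (bet_pos k).le
  refine le_trans ?_ h2
  unfold lam
  have := abs_min_sub_min_le_max 1 (DD k σ / bet k) 1 (DD k τ / bet k)
  simpa using this

/-- The logarithmic profile. -/
noncomputable def th (c r ρ a : ℝ) : ℝ := c * Real.log (ρ / max r (min a ρ))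

theorem th_nonneg {c r ρ : ℝ} (hc : 0 ≤ c) (hr : 0 < r) (hρ : r ≤ ρ) (a : ℝ) :
    0 ≤ th c r ρ a := by
  apply mul_nonneg hc
  apply Real.log_nonneg
  rw [one_le_div (lt_of_lt_of_le hr (le_max_left _ _))]
  exact max_le hρ (min_le_right _ _)

theorem th_of_le {c r ρ a : ℝ} (hρ : r ≤ ρ) (ha : a ≤ r) :
    th c r ρ a = c * Real.log (ρ / r) := by
  unfold th
  rw [min_eq_left (ha.trans hρ), max_eq_left ha]

theorem th_of_ge {c r ρ a : ℝ} (hr : 0 < r) (hρ : r ≤ ρ) (ha : ρ ≤ a) :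
    th c r ρ a = 0 := by
  unfold th
  rw [min_eq_right ha, max_eq_right hρ, div_self (hr.trans_le hρ).ne', Real.log_one, mul_zero]

theorem th_le {c r ρ : ℝ} (hc : 0 ≤ c) (hr : 0 < r) (hρ : r ≤ ρ) (a : ℝ) :
    th c r ρ a ≤ c * Real.log (ρ / r) := by
  apply mul_le_mul_of_nonneg_left _ hc
  have h0 : 0 < max r (min a ρ) := lt_of_lt_of_le hr (le_max_left _ _)
  apply Real.log_le_log (div_pos (hr.trans_le hρ) h0)
  exact div_le_div_of_nonneg_left (hr.trans_le hρ).le hr (le_max_left _ _)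

theorem th_sub {c r ρ a b : ℝ} (hc : 0 ≤ c) (hr : 0 < r) (hρ : r ≤ ρ)
    (hab : a ≤ b) : a * |th c r ρ a - th c r ρ b| ≤ c * (b - a) := by
  set A := max r (min a ρ) with hA
  set B := max r (min b ρ) with hB
  have hA0 : 0 < A := lt_of_lt_of_le hr (le_max_left _ _)
  have hAB : A ≤ B := max_le_max le_rfl (min_le_min hab le_rfl)
  have hB0 : 0 < B := hA0.trans_le hAB
  have hρ0 : 0 < ρ := hr.trans_le hρ
  have h1 : th c r ρ a - th c r ρ b = c * (Real.log B - Real.log A) := by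
    unfold th
    rw [← hA, ← hB, Real.log_div hρ0.ne' hA0.ne', Real.log_div hρ0.ne' hB0.ne']
    ring
  have h2 : 0 ≤ Real.log B - Real.log A := by
    have := Real.log_le_log hA0 hAB
    linarith
  rw [h1, abs_mul, abs_of_nonneg hc, abs_of_nonneg h2]
  have h3 : Real.log B - Real.log A ≤ (B - A) / A := by
    rw [← Real.log_div hB0.ne' hA0.ne']
    have := Real.log_le_sub_one_of_pos (div_pos hB0 hA0)
    rw [sub_div, div_self hA0.ne']
    exact this
  have h4 : a * (Real.log B - Real.log A) ≤ b - a := by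
    by_cases hcase : a ≤ ρ
    · have h5 : a ≤ A := by rw [hA, min_eq_left hcase]; exact le_max_right _ _
      have h6 : B - A ≤ b - a := by
        have h7 : B ≤ max r b := max_le_max le_rfl (min_le_left _ _)
        have h8 : A = max r a := by rw [hA, min_eq_left hcase]
        rw [h8]
        rcases le_total r a with h | h
        · rw [max_eq_right h]
          rw [max_eq_right (h.trans hab)] at h7
          linarith
        · rw [max_eq_left h]
          rcases le_total r b with h' | h'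
          · rw [max_eq_right h'] at h7
            linarith
          · rw [max_eq_left h'] at h7
            linarith
      calc a * (Real.log B - Real.log A) ≤ A * ((B - A) / A) :=
            mul_le_mul h5 h3 h2 hA0.le
        _ = B - A := by field_simp
        _ ≤ b - a := h6
    · push Not at hcase
      have h9 : A = B := by
        rw [hA, hB, min_eq_right hcase.le, min_eq_right (hcase.le.trans hab)]
      rw [h9, sub_self, mul_zero]
      linarith
  calc a * (c * (Real.log B - Real.log A)) = c * (a * (Real.log B - Real.log A)) := by ring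
    _ ≤ c * (b - a) := mul_le_mul_of_nonneg_left h4 hc

/-- The outer radius. -/
noncomputable def rho (k : ℕ) : ℝ := (pw (k + 1))⁻¹ * (1 / 4) ^ (k + 2)

/-- The inner radius. -/
noncomputable def rr (k : ℕ) : ℝ := rho k * Real.exp (-(2 ^ (k + 1)))

/-- The coefficient of the logarithm. -/
noncomputable def cc (k : ℕ) : ℝ := Real.pi / 2 / 2 ^ (k + 1)

theorem rho_pos (k : ℕ) : 0 < rho k := by
  unfold rho
  have := pw_pos (k + 1)
  positivity

theorem rr_pos (k : ℕ) : 0 < rr k := mul_pos (rho_pos k) (Real.exp_pos _)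

theorem rr_le_rho (k : ℕ) : rr k ≤ rho k := by
  unfold rr
  have h : Real.exp (-(2 ^ (k + 1))) ≤ 1 := by
    rw [Real.exp_le_one_iff]
    have : (0 : ℝ) ≤ 2 ^ (k + 1) := by positivity
    linarith
  have := rho_pos k
  nlinarith

theorem cc_nonneg (k : ℕ) : 0 ≤ cc k := by
  unfold cc
  have := Real.pi_pos
  positivity

theorem cc_log (k : ℕ) : cc k * Real.log (rho k / rr k) = Real.pi / 2 := by
  have h1 : rho k / rr k = Real.exp (2 ^ (k + 1)) := by
    unfold rr
    rw [Real.exp_neg]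
    have := (rho_pos k).ne'
    have := (Real.exp_pos (2 ^ (k + 1))).ne'
    field_simp
  rw [h1, Real.log_exp, cc]
  field_simp

theorem rho_le (k : ℕ) : rho k ≤ (1 / 4) ^ (k + 2) := by
  unfold rho
  have h1 : (pw (k + 1))⁻¹ ≤ 1 := inv_le_one_of_one_le₀ (one_le_pw _)
  have h2 : (0 : ℝ) ≤ (1 / 4) ^ (k + 2) := by positivity
  nlinarith

theorem lip_const (k : ℕ) :
    cc k + Real.pi / 2 * rho k * pw (k + 1) / bet k ≤ (1 / 2) ^ k := by
  have h1 : rho k * pw (k + 1) = (1 / 4) ^ (k + 2) := by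
    unfold rho
    have := (pw_pos (k + 1)).ne'
    field_simp
  have h2 : (1 / 4 : ℝ) ^ (k + 2) / bet k = (1 / 2) ^ k / 16 := by
    unfold bet
    have : (1 / 4 : ℝ) ^ (k + 2) = (1 / 2) ^ k * (1 / 2) ^ k / 16 := by
      rw [pow_add, ← mul_pow]
      norm_num
      ring
    rw [this]
    field_simp
  have h3 : Real.pi / 2 * rho k * pw (k + 1) / bet k = Real.pi / 2 * ((1 / 2) ^ k / 16) := by
    rw [← h2, ← h1]
    ring
  have h4 : cc k = Real.pi / 4 * (1 / 2) ^ k := by
    unfold cc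
    rw [pow_succ, div_pow, one_pow]
    ring
  rw [h3, h4]
  have h5 := Real.pi_lt_d2
  have h6 : (0 : ℝ) < (1 / 2) ^ k := by positivity
  nlinarith

end Pool.Agent.NSD
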