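import Mathlib

/-!
Rotations in the plane spanned by two orthonormal vectors of a real inner product space.
-/

namespace Pool.Agent.NSD

open scoped RealInnerProductSpace

variable {H : Type*} [NormedAddCommGroup H] [InnerProductSpace ℝ H]

/-- The rotation by the angle `t` in the plane of the orthonormal vectors `u`, `v`. -/
noncomputable def rot (u v : H) (t : ℝ) (x : H) : H :=
  x + ((Real.cos t - 1) * ⟪u, x⟫ - Real.sin t * ⟪v, x⟫) • u
    + (Real.sin t * ⟪u, x⟫ + (Real.cos t - 1) * ⟪v, x⟫) • v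

/-- The norm of the projection of `x` to the plane of `u`, `v`. -/
noncomputable def rad (u v x : H) : ℝ := Real.sqrt (⟪u, x⟫ ^ 2 + ⟪v, x⟫ ^ 2)

/-- A pair of orthonormal vectors. -/
def ON (u v : H) : Prop := ⟪u, u⟫ = 1 ∧ ⟪v, v⟫ = 1 ∧ ⟪u, v⟫ = 0

theorem ON.symm_inner {u v : H} (h : ON u v) : ⟪v, u⟫ = 0 := by
  rw [real_inner_comm]; exact h.2.2

theorem rot_zero (u v x : H) : rot u v 0 x = x := by
  simp [rot]

theorem inner_rot_left {u v : H} (h : ON u v) (t : ℝ) (x : H) :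
    ⟪u, rot u v t x⟫ = Real.cos t * ⟪u, x⟫ - Real.sin t * ⟪v, x⟫ := by
  unfold rot
  rw [inner_add_right, inner_add_right, inner_smul_right, inner_smul_right, h.1, h.2.2]
  ring

theorem inner_rot_right {u v : H} (h : ON u v) (t : ℝ) (x : H) :
    ⟪v, rot u v t x⟫ = Real.sin t * ⟪u, x⟫ + Real.cos t * ⟪v, x⟫ := by
  unfold rot
  rw [inner_add_right, inner_add_right, inner_smul_right, inner_smul_right, h.2.1, h.symm_inner]
  ring

theorem inner_rot_of_orth {u v w : H} (hu : ⟪w, u⟫ = 0) (hv : ⟪w, v⟫ = 0) (t : ℝ) (x : H) :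
    ⟪w, rot u v t x⟫ = ⟪w, x⟫ := by
  unfold rot
  rw [inner_add_right, inner_add_right, inner_smul_right, inner_smul_right, hu, hv]
  ring

theorem rot_rot {u v : H} (h : ON u v) (s t : ℝ) (x : H) :
    rot u v s (rot u v t x) = rot u v (s + t) x := by
  have h1 := inner_rot_left h t x
  have h2 := inner_rot_right h t x
  have h3 : rot u v s (rot u v t x) = rot u v t x
      + ((Real.cos s - 1) * ⟪u, rot u v t x⟫ - Real.sin s * ⟪v, rot u v t x⟫) • u
      + (Real.sin s * ⟪u, rot u v t x⟫ + (Real.cos s - 1) * ⟪v, rot u v t x⟫) • v := rfl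
  rw [h3, h1, h2]
  unfold rot
  rw [Real.cos_add, Real.sin_add]
  module

theorem rot_sub_rot (u v : H) (t : ℝ) (x y : H) :
    rot u v t x - rot u v t y = rot u v t (x - y) := by
  unfold rot
  simp only [inner_sub_right]
  module

theorem rot_add (u v : H) (t : ℝ) (x y : H) :
    rot u v t (x + y) = rot u v t x + rot u v t y := by
  unfold rot
  simp only [inner_add_right]
  module

theorem norm_sq_comb {u v : H} (h : ON u v) (a b : ℝ) :
    ‖a • u + b • v‖ ^ 2 = a ^ 2 + b ^ 2 := by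
  rw [← real_inner_self_eq_norm_sq]
  simp only [inner_add_left, inner_add_right, inner_smul_left, inner_smul_right, h.1, h.2.1,
    h.2.2, h.symm_inner]
  simp
  ring

theorem norm_rot {u v : H} (h : ON u v) (t : ℝ) (x : H) : ‖rot u v t x‖ = ‖x‖ := by
  have h3 : ‖rot u v t x‖ ^ 2 = ‖x‖ ^ 2 := by
    unfold rot
    rw [add_assoc, @norm_add_sq_real]
    rw [norm_sq_comb h]
    simp only [inner_add_right, inner_smul_right]
    rw [real_inner_comm u x, real_inner_comm v x]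
    have := Real.sin_sq_add_cos_sq t
    linear_combination (⟪u, x⟫ ^ 2 + ⟪v, x⟫ ^ 2) * this
  exact (sq_eq_sq₀ (norm_nonneg _) (norm_nonneg _)).mp h3

theorem norm_rot_sub_rot {u v : H} (h : ON u v) (s t : ℝ) (x : H) :
    ‖rot u v s x - rot u v t x‖ ≤ |s - t| * rad u v x := by
  have h1 : rot u v s x - rot u v t x
      = ((Real.cos s - Real.cos t) * ⟪u, x⟫ - (Real.sin s - Real.sin t) * ⟪v, x⟫) • u
        + ((Real.sin s - Real.sin t) * ⟪u, x⟫ + (Real.cos s - Real.cos t) * ⟪v, x⟫) • v := by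
    unfold rot
    module
  have h2 : ‖rot u v s x - rot u v t x‖ ^ 2
      = (2 - 2 * Real.cos (s - t)) * (⟪u, x⟫ ^ 2 + ⟪v, x⟫ ^ 2) := by
    rw [h1, norm_sq_comb h, Real.cos_sub]
    have e1 := Real.sin_sq_add_cos_sq t
    have e2 := Real.sin_sq_add_cos_sq s
    linear_combination (⟪u, x⟫ ^ 2 + ⟪v, x⟫ ^ 2) * (e1 + e2)
  have h3 : 2 - 2 * Real.cos (s - t) ≤ (s - t) ^ 2 := by
    have := Real.one_sub_sq_div_two_le_cos (x := s - t)
    linarith
  have h4 : 0 ≤ ⟪u, x⟫ ^ 2 + ⟪v, x⟫ ^ 2 := by positivity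
  have h5 : ‖rot u v s x - rot u v t x‖ ^ 2 ≤ (|s - t| * rad u v x) ^ 2 := by
    rw [h2, mul_pow, rad, Real.sq_sqrt h4, sq_abs]
    exact mul_le_mul_of_nonneg_right h3 h4
  exact le_of_sq_le_sq h5 (mul_nonneg (abs_nonneg _) (Real.sqrt_nonneg _))

theorem rad_nonneg (u v x : H) : 0 ≤ rad u v x := Real.sqrt_nonneg _

theorem rad_rot {u v : H} (h : ON u v) (t : ℝ) (x : H) : rad u v (rot u v t x) = rad u v x := by
  unfold rad
  rw [inner_rot_left h, inner_rot_right h]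
  congr 1
  have := Real.sin_sq_add_cos_sq t
  linear_combination (⟪u, x⟫ ^ 2 + ⟪v, x⟫ ^ 2) * this

theorem norm_rot_sub_self {u v : H} (h : ON u v) (t : ℝ) (x : H) :
    ‖rot u v t x - x‖ ≤ |t| * rad u v x := by
  have := norm_rot_sub_rot h t 0 x
  rwa [rot_zero, sub_zero] at this

theorem rad_eq_norm {u v : H} (h : ON u v) (x : H) :
    rad u v x = ‖⟪u, x⟫ • u + ⟪v, x⟫ • v‖ := by
  have h1 := norm_sq_comb h ⟪u, x⟫ ⟪v, x⟫
  unfold rad
  rw [← h1]
  exact Real.sqrt_sq (norm_nonneg _)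

theorem abs_rad_sub_rad {u v : H} (h : ON u v) (x y : H) :
    |rad u v x - rad u v y| ≤ ‖x - y‖ := by
  rw [rad_eq_norm h, rad_eq_norm h]
  refine (abs_norm_sub_norm_le _ _).trans ?_
  have h1 : ⟪u, x⟫ • u + ⟪v, x⟫ • v - (⟪u, y⟫ • u + ⟪v, y⟫ • v)
      = ⟪u, x - y⟫ • u + ⟪v, x - y⟫ • v := by
    simp only [inner_sub_right]
    module
  rw [h1, ← rad_eq_norm h]
  -- Bessel for two vectors
  set z := x - y
  have h2 : 0 ≤ ‖z - (⟪u, z⟫ • u + ⟪v, z⟫ • v)‖ ^ 2 := by positivity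
  rw [@norm_sub_sq_real, norm_sq_comb h] at h2
  simp only [inner_add_right, inner_smul_right] at h2
  rw [real_inner_comm u z, real_inner_comm v z] at h2
  have h3 : rad u v z ^ 2 ≤ ‖z‖ ^ 2 := by
    unfold rad
    rw [Real.sq_sqrt (by positivity)]
    nlinarith
  exact le_of_sq_le_sq h3 (norm_nonneg _)

theorem rad_le {u v : H} (x : H) : rad u v x ≤ |⟪u, x⟫| + |⟪v, x⟫| := by
  unfold rad
  rw [← Real.sqrt_sq (show (0:ℝ) ≤ |⟪u, x⟫| + |⟪v, x⟫| by positivity)]
  apply Real.sqrt_le_sqrt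
  have h1 := sq_abs ⟪u, x⟫
  have h2 := sq_abs ⟪v, x⟫
  nlinarith [abs_nonneg ⟪u, x⟫, abs_nonneg ⟪v, x⟫]

/-- Rotation by a right angle maps `v` to `-u`. -/
theorem rot_pi_div_two_right {u v : H} (h : ON u v) : rot u v (Real.pi / 2) v = -u := by
  unfold rot
  rw [h.2.1, h.2.2, Real.cos_pi_div_two, Real.sin_pi_div_two]
  module

theorem rot_smul (u v : H) (t c : ℝ) (x : H) : rot u v t (c • x) = c • rot u v t x := by
  unfold rot
  simp only [inner_smul_right]
  module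

end Pool.Agent.NSD
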