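import Mathlib
import Pool.Agent.NSD.Rot
import Pool.Agent.NSD.Limit
import Pool.Agent.NSD.Param

/-!
The twist maps and the tower they form.
-/

namespace Pool.Agent.NSD

open scoped RealInnerProductSpace

/-- Labels of the orthonormal family. -/
abbrev Lab := Fin 5 ⊕ (ℕ × (Fin 5 → ℤ))

variable {H : Type*} [NormedAddCommGroup H] [InnerProductSpace ℝ H]

/-- The five control coordinates. -/
noncomputable def sc (e : Lab → H) (x : H) : Fin 5 → ℝ := fun i => ⟪e (Sum.inl i), x⟫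

/-- The active vector of level `k` at the control point `σ`. -/
noncomputable def Ev (e : Lab → H) (k : ℕ) (σ : Fin 5 → ℝ) : H := e (Sum.inr (k, cell k σ))

theorem inner_Ev_self {e : Lab → H} (he : Orthonormal ℝ e) (k : ℕ) (σ : Fin 5 → ℝ) :
    ⟪Ev e k σ, Ev e k σ⟫ = 1 := by
  unfold Ev
  rw [real_inner_self_eq_norm_sq, he.1]
  norm_num

theorem inner_Ev_ne {e : Lab → H} (he : Orthonormal ℝ e) {j k : ℕ} (hjk : j ≠ k)
    (σ τ : Fin 5 → ℝ) : ⟪Ev e j σ, Ev e k τ⟫ = 0 := by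
  apply he.2
  intro h
  simp only [Sum.inr.injEq, Prod.mk.injEq] at h
  exact hjk h.1

theorem inner_inl_Ev {e : Lab → H} (he : Orthonormal ℝ e) (i : Fin 5) (k : ℕ)
    (σ : Fin 5 → ℝ) : ⟪e (Sum.inl i), Ev e k σ⟫ = 0 := by
  apply he.2
  simp

theorem ON_Ev {e : Lab → H} (he : Orthonormal ℝ e) (k : ℕ) (σ : Fin 5 → ℝ) :
    ON (Ev e k σ) (Ev e (k + 1) σ) :=
  ⟨inner_Ev_self he k σ, inner_Ev_self he (k + 1) σ, inner_Ev_ne he (by omega) σ σ⟩

theorem norm_Ev {e : Lab → H} (he : Orthonormal ℝ e) (k : ℕ) (σ : Fin 5 → ℝ) :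
    ‖Ev e k σ‖ = 1 := he.1 _

theorem abs_sc_sub {e : Lab → H} (he : Orthonormal ℝ e) (x y : H) (i : Fin 5) :
    |sc e x i - sc e y i| ≤ ‖x - y‖ := by
  unfold sc
  rw [← inner_sub_right]
  refine (abs_real_inner_le_norm _ _).trans ?_
  rw [he.1, one_mul]

/-- The rotation angle. -/
noncomputable def Phi (e : Lab → H) (k : ℕ) (x : H) : ℝ :=
  lam k (sc e x) * th (cc k) (rr k) (rho k) (rad (Ev e k (sc e x)) (Ev e (k + 1) (sc e x)) x)

/-- The twist maps. -/
noncomputable def Tw (e : Lab → H) (ε : ℝ) (k : ℕ) (x : H) : H :=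
  rot (Ev e k (sc e x)) (Ev e (k + 1) (sc e x)) (ε * Phi e k x) x

theorem sc_rot {e : Lab → H} (he : Orthonormal ℝ e) (k : ℕ) (σ : Fin 5 → ℝ) (t : ℝ) (x : H) :
    sc e (rot (Ev e k σ) (Ev e (k + 1) σ) t x) = sc e x := by
  funext i
  exact inner_rot_of_orth (inner_inl_Ev he i _ _) (inner_inl_Ev he i _ _) t x

theorem sc_Tw {e : Lab → H} (he : Orthonormal ℝ e) (ε : ℝ) (k : ℕ) (x : H) :
    sc e (Tw e ε k x) = sc e x := sc_rot he _ _ _ _

theorem Phi_Tw {e : Lab → H} (he : Orthonormal ℝ e) (ε : ℝ) (k : ℕ) (x : H) :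
    Phi e k (Tw e ε k x) = Phi e k x := by
  unfold Phi
  rw [sc_Tw he]
  unfold Tw
  rw [rad_rot (ON_Ev he k _)]

theorem Tw_Tw {e : Lab → H} (he : Orthonormal ℝ e) (ε δ : ℝ) (k : ℕ) (x : H) :
    Tw e δ k (Tw e ε k x)
      = rot (Ev e k (sc e x)) (Ev e (k + 1) (sc e x)) ((δ + ε) * Phi e k x) x := by
  have h1 : Tw e δ k (Tw e ε k x) = rot (Ev e k (sc e (Tw e ε k x)))
      (Ev e (k + 1) (sc e (Tw e ε k x))) (δ * Phi e k (Tw e ε k x)) (Tw e ε k x) := rfl
  rw [h1, Phi_Tw he, sc_Tw he]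
  unfold Tw
  rw [rot_rot (ON_Ev he k _), ← add_mul]

theorem Tw_neg_Tw {e : Lab → H} (he : Orthonormal ℝ e) (ε : ℝ) (k : ℕ) (x : H) :
    Tw e (-ε) k (Tw e ε k x) = x := by
  rw [Tw_Tw he, neg_add_cancel, zero_mul, rot_zero]

theorem Phi_nonneg (e : Lab → H) (k : ℕ) (x : H) : 0 ≤ Phi e k x :=
  mul_nonneg (lam_nonneg _ _) (th_nonneg (cc_nonneg k) (rr_pos k) (rr_le_rho k) _)

theorem th_le_pi (k : ℕ) (a : ℝ) : th (cc k) (rr k) (rho k) a ≤ Real.pi / 2 := by
  have := th_le (cc_nonneg k) (rr_pos k) (rr_le_rho k) a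
  rwa [cc_log] at this

theorem th_nonneg' (k : ℕ) (a : ℝ) : 0 ≤ th (cc k) (rr k) (rho k) a :=
  th_nonneg (cc_nonneg k) (rr_pos k) (rr_le_rho k) a

/-- The product of the angle profile and the radius is bounded. -/
theorem th_mul_le (k : ℕ) {a : ℝ} (ha : 0 ≤ a) :
    th (cc k) (rr k) (rho k) a * a ≤ Real.pi / 2 * rho k := by
  have hpi := Real.pi_pos
  by_cases h : rho k ≤ a
  · rw [th_of_ge (rr_pos k) (rr_le_rho k) h, zero_mul]
    have := rho_pos k
    positivity
  · push Not at h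
    exact mul_le_mul (th_le_pi k a) h.le ha (by positivity)

theorem abs_mul_Phi {ε : ℝ} (hε : |ε| ≤ 1) (e : Lab → H) (k : ℕ) (x : H) :
    |ε * Phi e k x| ≤ Phi e k x := by
  rw [abs_mul, abs_of_nonneg (Phi_nonneg e k x)]
  exact mul_le_of_le_one_left (Phi_nonneg e k x) hε

/-- The displacement is controlled by the cut-off. -/
theorem Tw_disp_lam {e : Lab → H} (he : Orthonormal ℝ e) {ε : ℝ} (hε : |ε| ≤ 1) (k : ℕ) (x : H) :
    ‖Tw e ε k x - x‖ ≤ lam k (sc e x) * (Real.pi / 2 * rho k) := by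
  unfold Tw
  refine (norm_rot_sub_self (ON_Ev he k _) _ _).trans ?_
  set a := rad (Ev e k (sc e x)) (Ev e (k + 1) (sc e x)) x with ha
  have ha0 : 0 ≤ a := rad_nonneg _ _ _
  calc |ε * Phi e k x| * a ≤ Phi e k x * a :=
        mul_le_mul_of_nonneg_right (abs_mul_Phi hε e k x) ha0
    _ = lam k (sc e x) * (th (cc k) (rr k) (rho k) a * a) := by
        unfold Phi
        rw [← ha]
        ring
    _ ≤ lam k (sc e x) * (Real.pi / 2 * rho k) :=
        mul_le_mul_of_nonneg_left (th_mul_le k ha0) (lam_nonneg _ _)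

theorem Tw_disp {e : Lab → H} (he : Orthonormal ℝ e) {ε : ℝ} (hε : |ε| ≤ 1) (k : ℕ) (x : H) :
    ‖Tw e ε k x - x‖ ≤ 2 * rho k := by
  refine (Tw_disp_lam he hε k x).trans ?_
  have h1 := lam_le_one k (sc e x)
  have h2 := rho_pos k
  have h3 := Real.pi_pos
  have h4 := Real.pi_lt_d2
  calc lam k (sc e x) * (Real.pi / 2 * rho k) ≤ 1 * (Real.pi / 2 * rho k) :=
        mul_le_mul_of_nonneg_right h1 (by positivity)
    _ ≤ 2 * rho k := by nlinarith

/-- The Lipschitz estimate inside one cell, ordered by the radius. -/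
theorem Tw_lip_same_aux {e : Lab → H} (he : Orthonormal ℝ e) {ε : ℝ} (hε : |ε| ≤ 1) (k : ℕ)
    (x y : H) (h0 : cell k (sc e x) = cell k (sc e y))
    (h1 : cell (k + 1) (sc e x) = cell (k + 1) (sc e y))
    (hr : rad (Ev e k (sc e x)) (Ev e (k + 1) (sc e x)) y
      ≤ rad (Ev e k (sc e x)) (Ev e (k + 1) (sc e x)) x) :
    ‖Tw e ε k x - Tw e ε k y‖ ≤ (1 + (1 / 2) ^ k) * ‖x - y‖ := by
  have hE0 : Ev e k (sc e y) = Ev e k (sc e x) := by unfold Ev; rw [h0]
  have hE1 : Ev e (k + 1) (sc e y) = Ev e (k + 1) (sc e x) := by unfold Ev; rw [h1]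
  unfold Tw
  rw [hE0, hE1]
  have hPx : Phi e k x = lam k (sc e x) * th (cc k) (rr k) (rho k)
    (rad (Ev e k (sc e x)) (Ev e (k + 1) (sc e x)) x) := rfl
  have hPy : Phi e k y = lam k (sc e y) * th (cc k) (rr k) (rho k)
      (rad (Ev e k (sc e x)) (Ev e (k + 1) (sc e x)) y) := by
    unfold Phi
    rw [hE0, hE1]
  have hON := ON_Ev he k (sc e x)
  set u := Ev e k (sc e x) with hu
  set v := Ev e (k + 1) (sc e x) with hv
  set a := rad u v x with ha
  set b := rad u v y with hb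
  have hb0 : 0 ≤ b := rad_nonneg _ _ _
  have h2 : rot u v (ε * Phi e k x) x - rot u v (ε * Phi e k y) y
      = rot u v (ε * Phi e k x) (x - y)
        + (rot u v (ε * Phi e k x) y - rot u v (ε * Phi e k y) y) := by
    rw [← rot_sub_rot]
    abel
  rw [h2]
  have h3 : ‖rot u v (ε * Phi e k x) y - rot u v (ε * Phi e k y) y‖
      ≤ |Phi e k x - Phi e k y| * b := by
    refine (norm_rot_sub_rot hON _ _ _).trans ?_
    rw [← mul_sub, abs_mul]
    exact mul_le_mul_of_nonneg_right (mul_le_of_le_one_left (abs_nonneg _) hε) hb0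
  have hab : |a - b| ≤ ‖x - y‖ := abs_rad_sub_rad hON x y
  have h4 : |Phi e k x - Phi e k y| * b
      ≤ (Real.pi / 2 * rho k * pw (k + 1) / bet k) * ‖x - y‖ + cc k * ‖x - y‖ := by
    have e1 : Phi e k x - Phi e k y = (lam k (sc e x) - lam k (sc e y))
        * th (cc k) (rr k) (rho k) a
        + lam k (sc e y) * (th (cc k) (rr k) (rho k) a - th (cc k) (rr k) (rho k) b) := by
      rw [hPx, hPy]
      ring
    have e2 : |Phi e k x - Phi e k y| ≤ |lam k (sc e x) - lam k (sc e y)|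
        * th (cc k) (rr k) (rho k) a
        + |th (cc k) (rr k) (rho k) a - th (cc k) (rr k) (rho k) b| := by
      rw [e1]
      refine (abs_add_le _ _).trans ?_
      rw [abs_mul, abs_mul, abs_of_nonneg (th_nonneg' k a), abs_of_nonneg (lam_nonneg k (sc e y))]
      have := mul_le_of_le_one_left
        (abs_nonneg (th (cc k) (rr k) (rho k) a - th (cc k) (rr k) (rho k) b))
        (lam_le_one k (sc e y))
      linarith
    have e3 : |lam k (sc e x) - lam k (sc e y)| ≤ pw (k + 1) * ‖x - y‖ / bet k :=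
      abs_lam_sub k _ _ _ (abs_sc_sub he x y)
    have e4 : th (cc k) (rr k) (rho k) a * b ≤ Real.pi / 2 * rho k :=
      (mul_le_mul_of_nonneg_left hr (th_nonneg' k a)).trans
        (th_mul_le k (rad_nonneg _ _ _))
    have e5 : b * |th (cc k) (rr k) (rho k) a - th (cc k) (rr k) (rho k) b|
        ≤ cc k * ‖x - y‖ := by
      rw [abs_sub_comm]
      refine (th_sub (cc_nonneg k) (rr_pos k) (rr_le_rho k) hr).trans ?_
      exact mul_le_mul_of_nonneg_left ((le_abs_self _).trans hab) (cc_nonneg k)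
    calc |Phi e k x - Phi e k y| * b
        ≤ (|lam k (sc e x) - lam k (sc e y)| * th (cc k) (rr k) (rho k) a
          + |th (cc k) (rr k) (rho k) a - th (cc k) (rr k) (rho k) b|) * b :=
          mul_le_mul_of_nonneg_right e2 hb0
      _ = |lam k (sc e x) - lam k (sc e y)| * (th (cc k) (rr k) (rho k) a * b)
          + b * |th (cc k) (rr k) (rho k) a - th (cc k) (rr k) (rho k) b| := by ring
      _ ≤ (pw (k + 1) * ‖x - y‖ / bet k) * (Real.pi / 2 * rho k) + cc k * ‖x - y‖ := by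
          apply add_le_add _ e5
          apply mul_le_mul e3 e4 (mul_nonneg (th_nonneg' k a) hb0)
          have := pw_pos (k + 1)
          have := bet_pos k
          positivity
      _ = (Real.pi / 2 * rho k * pw (k + 1) / bet k) * ‖x - y‖ + cc k * ‖x - y‖ := by ring
  have h5 := lip_const k
  have h6 := norm_nonneg (x - y)
  have h7 : (cc k + Real.pi / 2 * rho k * pw (k + 1) / bet k) * ‖x - y‖
      ≤ (1 / 2) ^ k * ‖x - y‖ := mul_le_mul_of_nonneg_right h5 h6
  calc ‖rot u v (ε * Phi e k x) (x - y)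
        + (rot u v (ε * Phi e k x) y - rot u v (ε * Phi e k y) y)‖
      ≤ ‖x - y‖ + |Phi e k x - Phi e k y| * b := by
        refine (norm_add_le _ _).trans (add_le_add ?_ h3)
        rw [norm_rot hON]
    _ ≤ (1 + (1 / 2) ^ k) * ‖x - y‖ := by linarith

theorem Tw_lip {e : Lab → H} (he : Orthonormal ℝ e) {ε : ℝ} (hε : |ε| ≤ 1) (k : ℕ)
    (x y : H) : ‖Tw e ε k x - Tw e ε k y‖ ≤ (1 + (1 / 2) ^ k) * ‖x - y‖ := by
  by_cases hc : cell k (sc e x) = cell k (sc e y) ∧ cell (k + 1) (sc e x) = cell (k + 1) (sc e y)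
  · obtain ⟨h0, h1⟩ := hc
    have hE0 : Ev e k (sc e y) = Ev e k (sc e x) := by unfold Ev; rw [h0]
    have hE1 : Ev e (k + 1) (sc e y) = Ev e (k + 1) (sc e x) := by unfold Ev; rw [h1]
    rcases le_total (rad (Ev e k (sc e x)) (Ev e (k + 1) (sc e x)) y)
      (rad (Ev e k (sc e x)) (Ev e (k + 1) (sc e x)) x) with h | h
    · exact Tw_lip_same_aux he hε k x y h0 h1 h
    · rw [norm_sub_rev, norm_sub_rev x y]
      apply Tw_lip_same_aux he hε k y x h0.symm h1.symm
      rw [hE0, hE1]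
      exact h
  · have hne : cell k (sc e x) ≠ cell k (sc e y) ∨ cell (k + 1) (sc e x) ≠ cell (k + 1) (sc e y) := by
      by_contra hcon
      push Not at hcon
      exact hc hcon
    have h1 := DD_add_DD_of_cell_ne k _ _ _ (abs_sc_sub he x y) hne
    have h2 := Tw_disp_lam he hε k x
    have h3 := Tw_disp_lam he hε k y
    have h4 := lam_le k (sc e x)
    have h5 := lam_le k (sc e y)
    have hpi := Real.pi_pos
    have hρ := rho_pos k
    have hβ := bet_pos k
    have h6 : (lam k (sc e x) + lam k (sc e y)) * (Real.pi / 2 * rho k)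
        ≤ (pw (k + 1) * ‖x - y‖ / bet k) * (Real.pi / 2 * rho k) := by
      apply mul_le_mul_of_nonneg_right _ (by positivity)
      refine (add_le_add h4 h5).trans ?_
      rw [← add_div]
      exact div_le_div_of_nonneg_right h1 hβ.le
    have h7 : Tw e ε k x - Tw e ε k y = (x - y) + ((Tw e ε k x - x) - (Tw e ε k y - y)) := by
      abel
    have h8 := lip_const k
    have h9 := cc_nonneg k
    have h10 : (cc k + Real.pi / 2 * rho k * pw (k + 1) / bet k) * ‖x - y‖
      ≤ (1 / 2) ^ k * ‖x - y‖ := mul_le_mul_of_nonneg_right h8 (norm_nonneg _)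
    have h11 : 0 ≤ cc k * ‖x - y‖ := mul_nonneg h9 (norm_nonneg _)
    have h12 : (pw (k + 1) * ‖x - y‖ / bet k) * (Real.pi / 2 * rho k)
        = (Real.pi / 2 * rho k * pw (k + 1) / bet k) * ‖x - y‖ := by ring
    rw [h7]
    calc ‖(x - y) + ((Tw e ε k x - x) - (Tw e ε k y - y))‖
        ≤ ‖x - y‖ + (‖Tw e ε k x - x‖ + ‖Tw e ε k y - y‖) :=
          (norm_add_le _ _).trans (add_le_add le_rfl (norm_sub_le _ _))
      _ ≤ (1 + (1 / 2) ^ k) * ‖x - y‖ := by linarith

theorem prod_le_exp (k n : ℕ) :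
    ∏ i ∈ Finset.range n, (1 + (1 / 2 : ℝ) ^ (k + i)) ≤ Real.exp 2 := by
  have h1 : ∏ i ∈ Finset.range n, (1 + (1 / 2 : ℝ) ^ (k + i))
      ≤ Real.exp (∑ i ∈ Finset.range n, (1 / 2 : ℝ) ^ (k + i)) := by
    rw [Real.exp_sum]
    apply Finset.prod_le_prod
    · intro i _
      positivity
    · intro i _
      have := Real.add_one_le_exp ((1 / 2 : ℝ) ^ (k + i))
      linarith
  refine h1.trans (Real.exp_le_exp.mpr ?_)
  have h2 : ∑ i ∈ Finset.range n, (1 / 2 : ℝ) ^ (k + i) ≤ ∑ i ∈ Finset.range n, (1 / 2 : ℝ) ^ i := by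
    apply Finset.sum_le_sum
    intro i _
    exact pow_le_pow_of_le_one (by norm_num) (by norm_num) (by omega)
  refine h2.trans ?_
  have h3 := summable_geometric_two.sum_le_tsum (Finset.range n) (fun i _ => by positivity)
  rwa [tsum_geometric_two] at h3

theorem summable_rho : Summable fun k => 2 * rho k := by
  apply Summable.mul_left
  refine Summable.of_nonneg_of_le (fun k => (rho_pos k).le) (fun k => rho_le k) ?_
  have : (fun k : ℕ => (1 / 4 : ℝ) ^ (k + 2)) = fun k => (1 / 4 : ℝ) ^ k * (1 / 4) ^ 2 := by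
    funext k
    rw [pow_add]
  rw [this]
  exact (summable_geometric_of_lt_one (by norm_num) (by norm_num)).mul_right _

/-- The twist maps form a tower. -/
theorem tower_Tw {e : Lab → H} (he : Orthonormal ℝ e) :
    Tower (fun k => Tw e 1 k) (fun k => Tw e (-1) k) (fun k => (1 / 2) ^ k)
      (fun k => 2 * rho k) (Real.exp 2) where
  left n x := Tw_neg_Tw he 1 n x
  right n x := by
    have := Tw_neg_Tw he (-1) n x
    rwa [neg_neg] at this
  lipT n x y := Tw_lip he (by simp) n x y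
  lipS n x y := Tw_lip he (by simp) n x y
  dispT n x := Tw_disp he (by simp) n x
  dispS n x := Tw_disp he (by simp) n x
  a_nonneg n := by positivity
  prod_le k n := prod_le_exp k n
  summ := summable_rho

end Pool.Agent.NSD
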