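import Mathlib
import Pool.Agent.NSD.Twist

/-!
The behaviour of the limit map at good points.
-/

namespace Pool.Agent.NSD

open scoped RealInnerProductSpace
open Filter Topology

variable {H : Type*} [NormedAddCommGroup H] [InnerProductSpace ℝ H]

/-- A point is good from level `k₀` on. -/
def Good (e : Lab → H) (k₀ : ℕ) (x : H) : Prop :=
  ∀ k, k₀ ≤ k → |⟪Ev e k (sc e x), x⟫| ≤ rr k / 4 ∧ ∀ i, bet k ≤ dI (pw (k + 1) * sc e x i)

/-- The limit maps of the tower. -/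
structure Lim (e : Lab → H) (X Y : ℕ → H → H) : Prop where
  lipX : ∀ k x y, ‖X k x - X k y‖ ≤ Real.exp 2 * ‖x - y‖
  lipY : ∀ k x y, ‖Y k x - Y k y‖ ≤ Real.exp 2 * ‖x - y‖
  XY : ∀ k y, X k (Y k y) = y
  YX : ∀ k x, Y k (X k x) = x
  step : ∀ k x, X k x = Tw e 1 k (X (k + 1) x)
  dispX : ∀ k x, ‖X k x - x‖ ≤ ∑' i, 2 * rho (k + i)
  dispY : ∀ k y, ‖Y k y - y‖ ≤ ∑' i, 2 * rho (k + i)
  lim : ∀ k x, Tendsto (fun n => fwd (fun k => Tw e 1 k) k n x) atTop (𝓝 (X k x))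

theorem exists_lim [CompleteSpace H] {e : Lab → H} (he : Orthonormal ℝ e) :
    ∃ X Y : ℕ → H → H, Lim e X Y := by
  obtain ⟨X, Y, h1, h2, h3, h4, h5, h6, h7, h8⟩ := (tower_Tw he).limits
  exact ⟨X, Y, h1, h2, h3, h4, h5, h6, h7, h8⟩

theorem pw_succ_ge (k : ℕ) : 65536 * pw k ≤ pw (k + 1) := by
  rw [pw_succ]
  apply mul_le_mul_of_nonneg_right _ (pw_pos k).le
  unfold pw
  calc (65536 : ℝ) = 2 ^ (2 ^ 4) := by norm_num
    _ ≤ 2 ^ (2 ^ (k + 4)) := by
      apply pow_le_pow_right₀ (by norm_num)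
      exact Nat.pow_le_pow_right (by norm_num) (by omega)

theorem rho_succ_le (k : ℕ) : rho (k + 1) ≤ rho k / 2 := by
  unfold rho
  have h1 := pw_succ_ge (k + 1)
  have h2 := pw_pos (k + 1)
  have h3 : (pw (k + 1 + 1))⁻¹ ≤ (pw (k + 1))⁻¹ := by
    apply inv_anti₀ h2
    linarith
  have h4 : (1 / 4 : ℝ) ^ (k + 1 + 2) = (1 / 4) ^ (k + 2) / 4 := by
    rw [show k + 1 + 2 = (k + 2) + 1 by ring, pow_succ]
    ring
  rw [h4]
  have h5 : (0 : ℝ) < (1 / 4) ^ (k + 2) := by positivity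
  have h6 : (0 : ℝ) < (pw (k + 1))⁻¹ := by positivity
  calc (pw (k + 1 + 1))⁻¹ * ((1 / 4) ^ (k + 2) / 4) ≤ (pw (k + 1))⁻¹ * ((1 / 4) ^ (k + 2) / 4) :=
        mul_le_mul_of_nonneg_right h3 (by positivity)
    _ ≤ (pw (k + 1))⁻¹ * (1 / 4) ^ (k + 2) / 2 := by
        have : 0 < (pw (k + 1))⁻¹ * (1 / 4) ^ (k + 2) := by positivity
        linarith

theorem rho_add_le (k i : ℕ) : rho (k + i) ≤ rho k * (1 / 2) ^ i := by
  induction i with
  | zero => simp
  | succ i ih =>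
    have := rho_succ_le (k + i)
    rw [← add_assoc, pow_succ]
    linarith

theorem tsum_rho_le (k : ℕ) : ∑' i, 2 * rho (k + i) ≤ 4 * rho k := by
  have h1 : Summable fun i => 2 * rho k * (1 / 2 : ℝ) ^ i :=
    summable_geometric_two.mul_left _
  have h2 : ∀ i, 2 * rho (k + i) ≤ 2 * rho k * (1 / 2 : ℝ) ^ i := by
    intro i
    have := rho_add_le k i
    linarith
  have h3 : Summable fun i => 2 * rho (k + i) := by
    have := (summable_nat_add_iff k).mpr summable_rho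
    simpa [add_comm] using this
  refine (h3.tsum_le_tsum h2 h1).trans ?_
  rw [tsum_mul_left, tsum_geometric_two]
  linarith

/-- The next outer radius is tiny compared with the inner radius. -/
theorem rho_succ_le_rr (k : ℕ) : rho (k + 1) ≤ rr k * (1 / 2) ^ k / 64 := by
  unfold rr rho
  have h1 := pw_pos (k + 1)
  have h2 : pw (k + 1 + 1) = pw (k + 1) * pw (k + 1) := pw_succ (k + 1)
  have h3 : Real.exp (2 ^ (k + 1)) ≤ 4 ^ (2 ^ (k + 1)) := by
    have e1 : Real.exp (2 ^ (k + 1)) = Real.exp 1 ^ (2 ^ (k + 1)) := by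
      rw [← Real.exp_nat_mul]
      push_cast
      rw [mul_one]
    rw [e1]
    apply pow_le_pow_left₀ (Real.exp_pos 1).le
    have := Real.exp_one_lt_d9
    linarith
  have h4 : Real.exp (2 ^ (k + 1)) * 2 ^ k * 64 ≤ pw (k + 1) := by
    have e2 : (2 : ℝ) ^ k ≤ 2 ^ (2 ^ k) :=
      pow_le_pow_right₀ (by norm_num) (Nat.lt_two_pow_self).le
    have e3 : (64 : ℝ) ≤ 64 ^ (2 ^ k) := by
      calc (64 : ℝ) = 64 ^ 1 := by norm_num
        _ ≤ 64 ^ (2 ^ k) := pow_le_pow_right₀ (by norm_num) Nat.one_le_two_pow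
    have e4 : pw (k + 1) = (2 ^ 32) ^ (2 ^ k) := by
      unfold pw
      rw [← pow_mul]
      congr 1
      ring
    have e5 : (4 : ℝ) ^ (2 ^ (k + 1)) = 16 ^ (2 ^ k) := by
      rw [pow_succ 2 k, mul_comm (2 ^ k) 2, pow_mul]
      norm_num
    rw [e4]
    calc Real.exp (2 ^ (k + 1)) * 2 ^ k * 64 ≤ 16 ^ (2 ^ k) * 2 ^ (2 ^ k) * 64 ^ (2 ^ k) := by
          rw [← e5]
          gcongr
      _ = (16 * 2 * 64) ^ (2 ^ k) := by rw [mul_pow, mul_pow]
      _ ≤ (2 ^ 32) ^ (2 ^ k) := pow_le_pow_left₀ (by norm_num) (by norm_num) _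
  have h5 : (1 / 4 : ℝ) ^ (k + 1 + 2) ≤ (1 / 4) ^ (k + 2) :=
    pow_le_pow_of_le_one (by norm_num) (by norm_num) (by omega)
  rw [h2, Real.exp_neg]
  have h6 := Real.exp_pos (2 ^ (k + 1))
  have h7 : (0 : ℝ) < 2 ^ k := by positivity
  have h8 : (1 / 2 : ℝ) ^ k = (2 ^ k)⁻¹ := by rw [one_div, inv_pow]
  rw [h8]
  have h9 : (pw (k + 1))⁻¹ ≤ (Real.exp (2 ^ (k + 1)))⁻¹ * (2 ^ k)⁻¹ / 64 := by
    rw [div_eq_mul_inv, ← mul_inv, ← mul_inv]
    exact inv_anti₀ (by positivity) h4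
  calc (pw (k + 1) * pw (k + 1))⁻¹ * (1 / 4) ^ (k + 1 + 2)
      ≤ (pw (k + 1) * pw (k + 1))⁻¹ * (1 / 4) ^ (k + 2) :=
        mul_le_mul_of_nonneg_left h5 (by positivity)
    _ = (pw (k + 1))⁻¹ * (1 / 4) ^ (k + 2) * (pw (k + 1))⁻¹ := by
        rw [mul_inv]
        ring
    _ ≤ (pw (k + 1))⁻¹ * (1 / 4) ^ (k + 2) * ((Real.exp (2 ^ (k + 1)))⁻¹ * (2 ^ k)⁻¹ / 64) :=
        mul_le_mul_of_nonneg_left h9 (by positivity)
    _ = (pw (k + 1))⁻¹ * (1 / 4) ^ (k + 2) * (Real.exp (2 ^ (k + 1)))⁻¹ * (2 ^ k)⁻¹ / 64 := by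
        ring

theorem rr_succ_le (k : ℕ) : rr (k + 1) ≤ rr k := by
  have h1 := rr_le_rho (k + 1)
  have h2 := rho_succ_le_rr k
  have h3 : (1 / 2 : ℝ) ^ k ≤ 1 := pow_le_one₀ (by norm_num) (by norm_num)
  have h4 := rr_pos k
  nlinarith

theorem rr_anti {j k : ℕ} (h : j ≤ k) : rr k ≤ rr j := by
  induction k, h using Nat.le_induction with
  | base => exact le_rfl
  | succ k _ ih => exact (rr_succ_le k).trans ih

omit [NormedAddCommGroup H] [InnerProductSpace ℝ H] in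
theorem fwd_add (T : ℕ → H → H) (k m n : ℕ) (x : H) :
    fwd T k (m + n) x = fwd T k m (fwd T (k + m) n x) := by
  induction n generalizing x with
  | zero => rfl
  | succ n ih =>
    change fwd T k (m + n) (T (k + (m + n)) x) = fwd T k m (fwd T (k + m) n (T (k + m + n) x))
    rw [ih, add_assoc]

theorem sc_fwd {e : Lab → H} (he : Orthonormal ℝ e) (k n : ℕ) (x : H) :
    sc e (fwd (fun k => Tw e 1 k) k n x) = sc e x := by
  induction n generalizing x with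
  | zero => rfl
  | succ n ih =>
    change sc e (fwd (fun k => Tw e 1 k) k n (Tw e 1 (k + n) x)) = _
    rw [ih, sc_Tw he]

theorem inner_Tw_of_orth {e : Lab → H} (k : ℕ) (x w : H)
    (h0 : ⟪w, Ev e k (sc e x)⟫ = 0) (h1 : ⟪w, Ev e (k + 1) (sc e x)⟫ = 0) (ε : ℝ) :
    ⟪w, Tw e ε k x⟫ = ⟪w, x⟫ := inner_rot_of_orth h0 h1 _ _

theorem inner_fwd_of_orth {e : Lab → H} (he : Orthonormal ℝ e) (k n : ℕ) (x w : H)
    (h : ∀ j, k ≤ j → ⟪w, Ev e j (sc e x)⟫ = 0) :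
    ⟪w, fwd (fun k => Tw e 1 k) k n x⟫ = ⟪w, x⟫ := by
  induction n generalizing x with
  | zero => rfl
  | succ n ih =>
    change ⟪w, fwd (fun k => Tw e 1 k) k n (Tw e 1 (k + n) x)⟫ = _
    rw [ih]
    · exact inner_Tw_of_orth _ _ _ (h _ (by omega)) (h _ (by omega)) _
    · intro j hj
      rw [sc_Tw he]
      exact h j hj

variable {e : Lab → H} {X Y : ℕ → H → H}

theorem Lim.inner_X (hL : Lim e X Y) (he : Orthonormal ℝ e) (k : ℕ) (x w : H)
    (h : ∀ j, k ≤ j → ⟪w, Ev e j (sc e x)⟫ = 0) : ⟪w, X k x⟫ = ⟪w, x⟫ := by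
  have h1 : Tendsto (fun n => ⟪w, fwd (fun k => Tw e 1 k) k n x⟫) atTop (𝓝 ⟪w, X k x⟫) :=
    tendsto_const_nhds.inner (hL.lim k x)
  simp only [inner_fwd_of_orth he k _ x w h] at h1
  exact tendsto_nhds_unique h1 tendsto_const_nhds |>.symm ▸ rfl

theorem Lim.sc_X (hL : Lim e X Y) (he : Orthonormal ℝ e) (k : ℕ) (x : H) :
    sc e (X k x) = sc e x := by
  funext i
  exact hL.inner_X he k x _ (fun j _ => inner_inl_Ev he i j _)

theorem Lim.dispX' (hL : Lim e X Y) (k : ℕ) (x : H) : ‖X k x - x‖ ≤ 4 * rho k :=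
  (hL.dispX k x).trans (tsum_rho_le k)

theorem Lim.dispY' (hL : Lim e X Y) (k : ℕ) (x : H) : ‖Y k x - x‖ ≤ 4 * rho k :=
  (hL.dispY k x).trans (tsum_rho_le k)

theorem Good.mono {k₀ k₁ : ℕ} (h : k₀ ≤ k₁) {x : H} (hx : Good e k₀ x) : Good e k₁ x :=
  fun k hk => hx k (h.trans hk)

/-- The angle is a right angle near the point `X (k+1) x`. -/
theorem Phi_eq (hL : Lim e X Y) (he : Orthonormal ℝ e) {k₀ : ℕ} {x : H} (hx : Good e k₀ x)
    {k : ℕ} (hk : k₀ ≤ k) {t : ℝ} (ht : |t| ≤ rr k / 8) :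
    Phi e k (X (k + 1) x + t • Ev e (k + 1) (sc e x)) = Real.pi / 2 ∧
    sc e (X (k + 1) x + t • Ev e (k + 1) (sc e x)) = sc e x := by
  have hsc : sc e (X (k + 1) x + t • Ev e (k + 1) (sc e x)) = sc e x := by
    funext i
    have h1 : sc e (X (k + 1) x + t • Ev e (k + 1) (sc e x)) i
        = ⟪e (Sum.inl i), X (k + 1) x + t • Ev e (k + 1) (sc e x)⟫ := rfl
    rw [h1, inner_add_right, inner_smul_right, inner_inl_Ev he, mul_zero, add_zero]
    exact congrFun (hL.sc_X he (k + 1) x) i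
  refine ⟨?_, hsc⟩
  unfold Phi
  rw [hsc, lam_eq_one (hx k hk).2, one_mul, th_of_le (rr_le_rho k), cc_log]
  set u := Ev e k (sc e x) with hu
  set v := Ev e (k + 1) (sc e x) with hv
  set w := X (k + 1) x + t • v with hw
  have h1 : ⟪u, w⟫ = ⟪u, x⟫ := by
    rw [hw, inner_add_right, inner_smul_right, inner_Ev_ne he (by omega), mul_zero, add_zero]
    exact hL.inner_X he (k + 1) x u (fun j hj => inner_Ev_ne he (by omega) _ _)
  have h2 : |⟪u, w⟫| ≤ rr k / 4 := by rw [h1]; exact (hx k hk).1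
  have h3 : ⟪v, w⟫ = ⟪v, x⟫ + ⟪v, X (k + 1) x - x⟫ + t := by
    rw [hw, inner_add_right, inner_smul_right, inner_Ev_self he, inner_sub_right]
    ring
  have h4 : |⟪v, x⟫| ≤ rr (k + 1) / 4 := (hx (k + 1) (by omega)).1
  have h5 : |⟪v, X (k + 1) x - x⟫| ≤ 4 * rho (k + 1) := by
    refine (abs_real_inner_le_norm _ _).trans ?_
    rw [norm_Ev he, one_mul]
    exact hL.dispX' (k + 1) x
  have h6 : |⟪v, w⟫| ≤ rr (k + 1) / 4 + 4 * rho (k + 1) + rr k / 8 := by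
    rw [h3]
    refine (abs_add_le _ _).trans (add_le_add ((abs_add_le _ _).trans (add_le_add h4 h5)) ht)
  have h7 := rho_succ_le_rr k
  have h8 := rr_le_rho (k + 1)
  have h9 := rr_pos k
  have h10 : (1 / 2 : ℝ) ^ k ≤ 1 := pow_le_one₀ (by norm_num) (by norm_num)
  have h11 : rr k * (1 / 2) ^ k ≤ rr k := mul_le_of_le_one_right h9.le h10
  refine (rad_le w).trans ?_
  linarith

/-- One step of the shift. -/
theorem Tw_shift (hL : Lim e X Y) (he : Orthonormal ℝ e) {k₀ : ℕ} {x : H} (hx : Good e k₀ x)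
    {k : ℕ} (hk : k₀ ≤ k) {t : ℝ} (ht : |t| ≤ rr k / 8) :
    Tw e 1 k (X (k + 1) x + t • Ev e (k + 1) (sc e x))
      = X k x + (-t) • Ev e k (sc e x) := by
  obtain ⟨h1, h2⟩ := Phi_eq hL he hx hk ht
  have h0 : |(0 : ℝ)| ≤ rr k / 8 := by
    rw [abs_zero]
    have := rr_pos k
    positivity
  obtain ⟨h3, h4⟩ := Phi_eq hL he hx hk h0
  rw [zero_smul, add_zero] at h3 h4
  rw [hL.step k x]
  unfold Tw
  rw [h1, h2, h3, h4, one_mul, rot_add, rot_smul, rot_pi_div_two_right (ON_Ev he k _)]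
  module

/-- The chain of shifts. -/
theorem fwd_shift (hL : Lim e X Y) (he : Orthonormal ℝ e) {k₀ : ℕ} {x : H} (hx : Good e k₀ x)
    (n : ℕ) {t : ℝ} (ht : |t| ≤ rr (k₀ + n) / 8) :
    fwd (fun k => Tw e 1 k) k₀ (n + 1) (X (k₀ + n + 1) x + t • Ev e (k₀ + n + 1) (sc e x))
      = X k₀ x + ((-1) ^ (n + 1) * t) • Ev e k₀ (sc e x) := by
  induction n generalizing t with
  | zero =>
    change Tw e 1 (k₀ + 0) (X (k₀ + 0 + 1) x + t • Ev e (k₀ + 0 + 1) (sc e x)) = _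
    rw [Tw_shift hL he hx (by omega) ht]
    simp
  | succ n ih =>
    have h1 : fwd (fun k => Tw e 1 k) k₀ (n + 1 + 1)
        (X (k₀ + (n + 1) + 1) x + t • Ev e (k₀ + (n + 1) + 1) (sc e x))
        = fwd (fun k => Tw e 1 k) k₀ (n + 1)
          (Tw e 1 (k₀ + (n + 1))
            (X (k₀ + (n + 1) + 1) x + t • Ev e (k₀ + (n + 1) + 1) (sc e x))) := rfl
    have h2 : |t| ≤ rr (k₀ + n) / 8 := by
      have := rr_succ_le (k₀ + n)
      rw [← add_assoc] at ht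
      linarith
    rw [h1, Tw_shift hL he hx (by omega) ht]
    have h3 := ih (t := -t) (by rw [abs_neg]; exact h2)
    have h4 : X (k₀ + (n + 1)) x + -t • Ev e (k₀ + (n + 1)) (sc e x)
        = X (k₀ + n + 1) x + -t • Ev e (k₀ + n + 1) (sc e x) := rfl
    rw [h4, h3, pow_succ _ (n + 1)]
    congr 2
    ring

theorem X_eq_fwd (hL : Lim e X Y) (k m : ℕ) (x : H) :
    X k x = fwd (fun k => Tw e 1 k) k m (X (k + m) x) := by
  induction m with
  | zero => rfl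
  | succ m ih =>
    change _ = fwd (fun k => Tw e 1 k) k m (Tw e 1 (k + m) (X (k + m + 1) x))
    rw [← hL.step, ← ih]

/-- The points used to test differentiability of the inverse. -/
theorem exists_test (hL : Lim e X Y) (he : Orthonormal ℝ e) {k₀ : ℕ} {x : H}
    (hx : Good e k₀ x) (n : ℕ) :
    ∃ s : ℝ, |s| ≤ 1 ∧
      ‖Y 0 (fwd (fun k => Tw e 1 k) 0 k₀ (X k₀ x + (s * (rr (k₀ + n) / 8)) • Ev e k₀ (sc e x)))
        - x - (rr (k₀ + n) / 8) • Ev e (k₀ + n + 1) (sc e x)‖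
        ≤ (rr (k₀ + n) / 8) * (1 / 2) ^ (k₀ + n) := by
  set T := fun k => Tw e 1 k with hT
  set t := rr (k₀ + n) / 8 with ht
  have ht0 : 0 < t := by
    have := rr_pos (k₀ + n)
    positivity
  have h1 := fwd_shift hL he hx n (t := t) (by rw [abs_of_pos ht0])
  refine ⟨(-1) ^ (n + 1), by simp, ?_⟩
  rw [← h1]
  set z := X (k₀ + n + 1) x + t • Ev e (k₀ + n + 1) (sc e x) with hz
  have h2 : fwd T 0 k₀ (fwd T k₀ (n + 1) z) = X 0 (Y (k₀ + n + 1) z) := by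
    rw [X_eq_fwd hL 0 (k₀ + n + 1), zero_add, hL.XY]
    have := fwd_add T 0 k₀ (n + 1) z
    rw [zero_add] at this
    exact this.symm
  rw [h2, hL.YX]
  have h3 : Y (k₀ + n + 1) z - x - t • Ev e (k₀ + n + 1) (sc e x)
      = (Y (k₀ + n + 1) z - z) + (X (k₀ + n + 1) x - x) := by
    rw [hz]
    abel
  rw [h3]
  refine (norm_add_le _ _).trans ?_
  have h4 := hL.dispY' (k₀ + n + 1) z
  have h5 := hL.dispX' (k₀ + n + 1) x
  have h6 := rho_succ_le_rr (k₀ + n)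
  rw [ht]
  linarith

theorem Tw_sub_mem {F : Submodule ℝ H} {k : ℕ} {w : H} (h0 : Ev e k (sc e w) ∈ F)
    (h1 : Ev e (k + 1) (sc e w) ∈ F) (ε : ℝ) : Tw e ε k w - w ∈ F := by
  unfold Tw rot
  have h2 : ∀ a b : ℝ, w + a • Ev e k (sc e w) + b • Ev e (k + 1) (sc e w) - w
      = a • Ev e k (sc e w) + b • Ev e (k + 1) (sc e w) := by
    intro a b
    abel
  rw [h2]
  exact F.add_mem (F.smul_mem _ h0) (F.smul_mem _ h1)

theorem fwd_sub_mem (he : Orthonormal ℝ e) {F : Submodule ℝ H} (m : ℕ) (w : H)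
    (hF : ∀ j, j ≤ m → Ev e j (sc e w) ∈ F) :
    fwd (fun k => Tw e 1 k) 0 m w - w ∈ F := by
  induction m generalizing w with
  | zero =>
    change w - w ∈ F
    rw [sub_self]
    exact F.zero_mem
  | succ m ih =>
    change fwd (fun k => Tw e 1 k) 0 m (Tw e 1 (0 + m) w) - w ∈ F
    rw [zero_add]
    have h1 : fwd (fun k => Tw e 1 k) 0 m (Tw e 1 m w) - Tw e 1 m w ∈ F := by
      apply ih
      intro j hj
      rw [sc_Tw he]
      exact hF j (by omega)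
    have h2 : Tw e 1 m w - w ∈ F := Tw_sub_mem (hF m (by omega)) (hF (m + 1) le_rfl) 1
    have h3 : fwd (fun k => Tw e 1 k) 0 m (Tw e 1 m w) - w
        = (fwd (fun k => Tw e 1 k) 0 m (Tw e 1 m w) - Tw e 1 m w) + (Tw e 1 m w - w) := by
      abel
    rw [h3]
    exact F.add_mem h1 h2

theorem fwd_lip' (he : Orthonormal ℝ e) (k n : ℕ) (x y : H) :
    ‖fwd (fun k => Tw e 1 k) k n x - fwd (fun k => Tw e 1 k) k n y‖ ≤ Real.exp 2 * ‖x - y‖ :=
  (tower_Tw he).fwd_lip k n x y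

theorem rr_tendsto (k₀ : ℕ) : Tendsto (fun n => rr (k₀ + n) / 8) atTop (𝓝 0) := by
  have h1 : Tendsto (fun n : ℕ => (1 / 4 : ℝ) ^ (n + 2)) atTop (𝓝 0) :=
    (tendsto_pow_atTop_nhds_zero_of_lt_one (by norm_num) (by norm_num)).comp
      (tendsto_add_atTop_nat 2)
  refine squeeze_zero (fun n => ?_) (fun n => ?_) h1
  · have := rr_pos (k₀ + n)
    positivity
  · have h2 := rr_pos (k₀ + n)
    have h3 := rr_le_rho (k₀ + n)
    have h4 := rho_le (k₀ + n)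
    have h5 : (1 / 4 : ℝ) ^ (k₀ + n + 2) ≤ (1 / 4) ^ (n + 2) :=
      pow_le_pow_of_le_one (by norm_num) (by norm_num) (by omega)
    linarith

/-- At the image of a good point the inverse map has no Gateaux derivative. -/
theorem exists_not_lineDifferentiableAt (hL : Lim e X Y) (he : Orthonormal ℝ e) {k₀ : ℕ} {x : H}
    (hx : Good e k₀ x) : ∃ v : H, ¬ LineDifferentiableAt ℝ (Y 0) (X 0 x) v := by
  by_contra hcon
  push Not at hcon
  set T := fun k => Tw e 1 k with hT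
  choose s hs1 hs2 using exists_test hL he hx
  set t : ℕ → ℝ := fun n => rr (k₀ + n) / 8 with ht
  have ht0 : ∀ n, 0 < t n := fun n => by
    have := rr_pos (k₀ + n)
    change 0 < rr (k₀ + n) / 8
    positivity
  set P : ℕ → H := fun n => fwd T 0 k₀ (X k₀ x + (s n * t n) • Ev e k₀ (sc e x)) with hP
  have hX0 : X 0 x = fwd T 0 k₀ (X k₀ x) := by
    have := X_eq_fwd hL 0 k₀ x
    rwa [zero_add] at this
  set h : ℕ → H := fun n => (t n)⁻¹ • (P n - X 0 x) with hh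
  have hbd : ∀ n, ‖h n‖ ≤ Real.exp 2 := by
    intro n
    change ‖(t n)⁻¹ • (P n - X 0 x)‖ ≤ _
    rw [norm_smul, norm_inv, Real.norm_of_nonneg (ht0 n).le, hX0]
    have h1 := fwd_lip' he 0 k₀ (X k₀ x + (s n * t n) • Ev e k₀ (sc e x)) (X k₀ x)
    rw [add_sub_cancel_left, norm_smul, norm_Ev he, mul_one, norm_mul,
      Real.norm_of_nonneg (ht0 n).le, Real.norm_eq_abs] at h1
    rw [inv_mul_le_iff₀ (ht0 n)]
    refine h1.trans ?_
    have h2 : |s n| * t n ≤ t n := mul_le_of_le_one_left (ht0 n).le (hs1 n)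
    have := Real.exp_pos 2
    nlinarith
  set F : Submodule ℝ H := Submodule.span ℝ (Set.range fun j : Fin (k₀ + 1) => Ev e j (sc e x))
    with hF
  have hEF : ∀ j, j ≤ k₀ → Ev e j (sc e x) ∈ F := fun j hj =>
    Submodule.subset_span ⟨⟨j, by omega⟩, rfl⟩
  have : FiniteDimensional ℝ F := FiniteDimensional.span_of_finite ℝ (Set.finite_range _)
  have hmem : ∀ n, h n ∈ F := by
    intro n
    apply F.smul_mem
    set w := X k₀ x + (s n * t n) • Ev e k₀ (sc e x) with hw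
    have hscw : sc e w = sc e x := by
      funext i
      change ⟪e (Sum.inl i), w⟫ = _
      rw [hw, inner_add_right, inner_smul_right, inner_inl_Ev he, mul_zero, add_zero]
      exact congrFun (hL.sc_X he k₀ x) i
    have h1 : fwd T 0 k₀ w - w ∈ F := fwd_sub_mem he k₀ w (by rw [hscw]; exact hEF)
    have h2 : fwd T 0 k₀ (X k₀ x) - X k₀ x ∈ F :=
      fwd_sub_mem he k₀ _ (by rw [hL.sc_X he]; exact hEF)
    have h3 : w - X k₀ x ∈ F := by
      rw [hw, add_sub_cancel_left]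
      exact F.smul_mem _ (hEF k₀ le_rfl)
    have h4 : P n - X 0 x = (fwd T 0 k₀ w - w) - (fwd T 0 k₀ (X k₀ x) - X k₀ x)
        + (w - X k₀ x) := by
      rw [hX0]
      change fwd T 0 k₀ w - _ = _
      abel
    rw [h4]
    exact F.add_mem (F.sub_mem h1 h2) h3
  -- a convergent subsequence
  have hsub : ∃ a : H, ∃ φ : ℕ → ℕ, StrictMono φ ∧ Tendsto (h ∘ φ) atTop (𝓝 a) := by
    let h' : ℕ → F := fun n => ⟨h n, hmem n⟩
    have hb : Bornology.IsBounded (Metric.closedBall (0 : F) (Real.exp 2)) :=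
      Metric.isBounded_closedBall
    have hb' : ∀ n, h' n ∈ Metric.closedBall (0 : F) (Real.exp 2) := by
      intro n
      rw [mem_closedBall_zero_iff]
      exact hbd n
    obtain ⟨a, _, φ, hφ, hlim⟩ := tendsto_subseq_of_bounded hb hb'
    refine ⟨a, φ, hφ, ?_⟩
    have := (continuous_subtype_val.tendsto a).comp hlim
    exact this
  obtain ⟨a, φ, hφ, hlim⟩ := hsub
  have hB := (hcon a).hasLineDerivAt
  set B : H := lineDeriv ℝ (Y 0) (X 0 x) a with hBdef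
  have hslope := hB.tendsto_slope_zero
  have htlim : Tendsto (fun n => t (φ n)) atTop (𝓝[≠] 0) := by
    rw [tendsto_nhdsWithin_iff]
    refine ⟨(rr_tendsto k₀).comp hφ.tendsto_atTop, Eventually.of_forall fun n => ?_⟩
    exact (ht0 _).ne'
  have h1 : Tendsto (fun n => (t (φ n))⁻¹ • (Y 0 (X 0 x + t (φ n) • a) - Y 0 (X 0 x)))
      atTop (𝓝 B) := hslope.comp htlim
  -- the vectors `E` converge
  have h2 : Tendsto (fun n => Ev e (k₀ + φ n + 1) (sc e x)
      - (t (φ n))⁻¹ • (Y 0 (X 0 x + t (φ n) • a) - Y 0 (X 0 x))) atTop (𝓝 0) := by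
    have hzero : Tendsto (fun n => (1 / 2 : ℝ) ^ (k₀ + φ n)
        + Real.exp 2 * ‖h (φ n) - a‖) atTop (𝓝 (0 + Real.exp 2 * ‖a - a‖)) := by
      refine Tendsto.add ?_ ?_
      · refine (tendsto_pow_atTop_nhds_zero_of_lt_one (by norm_num) (by norm_num)).comp ?_
        exact tendsto_atTop_mono (fun n => Nat.le_add_left _ _) hφ.tendsto_atTop
      · exact ((hlim.sub tendsto_const_nhds).norm).const_mul _
    rw [sub_self, norm_zero, mul_zero, add_zero] at hzero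
    refine squeeze_zero_norm (fun n => ?_) hzero
    set τ := t (φ n) with hτ
    have hτ0 : 0 < τ := ht0 _
    have e1 := hs2 (φ n)
    have e2 := hL.lipY 0 (P (φ n)) (X 0 x + τ • a)
    have e3 : P (φ n) - (X 0 x + τ • a) = τ • (h (φ n) - a) := by
      rw [smul_sub]
      change _ = τ • ((t (φ n))⁻¹ • (P (φ n) - X 0 x)) - _
      rw [← hτ, smul_smul, mul_inv_cancel₀ hτ0.ne', one_smul]
      abel
    rw [e3, norm_smul, Real.norm_of_nonneg hτ0.le] at e2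
    have e4 : Ev e (k₀ + φ n + 1) (sc e x)
        - τ⁻¹ • (Y 0 (X 0 x + τ • a) - Y 0 (X 0 x))
        = τ⁻¹ • ((Y 0 (P (φ n)) - Y 0 (X 0 x + τ • a))
          - (Y 0 (P (φ n)) - x - τ • Ev e (k₀ + φ n + 1) (sc e x))) := by
      rw [hL.YX]
      have : Ev e (k₀ + φ n + 1) (sc e x) = τ⁻¹ • (τ • Ev e (k₀ + φ n + 1) (sc e x)) := by
        rw [smul_smul, inv_mul_cancel₀ hτ0.ne', one_smul]
      nth_rewrite 1 [this]
      rw [← smul_sub]
      congr 1
      abel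
    rw [e4, norm_smul, norm_inv, Real.norm_of_nonneg hτ0.le, inv_mul_le_iff₀ hτ0]
    refine (norm_sub_le _ _).trans ?_
    have e5 : ‖Y 0 (P (φ n)) - x - τ • Ev e (k₀ + φ n + 1) (sc e x)‖
        ≤ τ * (1 / 2) ^ (k₀ + φ n) := e1
    linarith
  have h3 : Tendsto (fun n => Ev e (k₀ + φ n + 1) (sc e x)) atTop (𝓝 B) := by
    have := h2.add h1
    simpa using this
  -- contradiction with orthonormality
  have h4 : Tendsto (fun n => ⟪Ev e (k₀ + φ n + 1) (sc e x), Ev e (k₀ + φ (n + 1) + 1) (sc e x)⟫)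
      atTop (𝓝 ⟪B, B⟫) := h3.inner (h3.comp (tendsto_add_atTop_nat 1))
  have h5 : ∀ n, ⟪Ev e (k₀ + φ n + 1) (sc e x), Ev e (k₀ + φ (n + 1) + 1) (sc e x)⟫ = 0 := by
    intro n
    apply inner_Ev_ne he
    have : φ n < φ (n + 1) := hφ (Nat.lt_succ_self n)
    omega
  simp only [h5] at h4
  have h6 : ⟪B, B⟫ = 0 := (tendsto_nhds_unique h4 tendsto_const_nhds)
  have h7 : Tendsto (fun n => ⟪Ev e (k₀ + φ n + 1) (sc e x), Ev e (k₀ + φ n + 1) (sc e x)⟫)
      atTop (𝓝 ⟪B, B⟫) := h3.inner h3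
  simp only [inner_Ev_self he] at h7
  have h8 : ⟪B, B⟫ = 1 := (tendsto_nhds_unique h7 tendsto_const_nhds)
  rw [h6] at h8
  norm_num at h8

end Pool.Agent.NSD
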