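import Mathlib
import Pool.Agent.NSD.Good

/-!
Almost every point of a five-dimensional translate is good.
-/

namespace Pool.Agent.NSD

open scoped RealInnerProductSpace ENNReal
open Filter Topology MeasureTheory

/-- The layers of points whose scaled value is close to an integer. -/
theorem volume_layer (R : ℕ) (k : ℕ) :
    volume {t : ℝ | |t| ≤ R ∧ dI (pw (k + 1) * t) < bet k}
      ≤ ENNReal.ofReal (2 * (2 * R + 3) * (1 / 2) ^ k) := by
  set N : ℤ := 2 ^ (2 ^ (k + 1 + 4)) with hN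
  have hNr : pw (k + 1) = (N : ℝ) := pw_cast (k + 1)
  have hN1 : (1 : ℝ) ≤ N := by rw [← hNr]; exact one_le_pw _
  set M : ℤ := N * R + 1 with hM
  have hM0 : 0 ≤ M := by
    have : (0 : ℝ) ≤ (M : ℝ) := by
      rw [hM]
      push_cast
      positivity
    exact_mod_cast this
  have hβ := bet_pos k
  have hβ1 : bet k ≤ 1 := pow_le_one₀ (by norm_num) (by norm_num)
  have hsub : {t : ℝ | |t| ≤ R ∧ dI (pw (k + 1) * t) < bet k}
      ⊆ ⋃ m ∈ Finset.Icc (-M) M, Metric.ball ((m : ℝ) / N) (bet k / N) := by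
    rintro t ⟨ht1, ht2⟩
    rw [hNr] at ht2
    have h1 : |(N : ℝ) * t - round ((N : ℝ) * t)| < bet k := ht2
    have h2 : |((round ((N : ℝ) * t) : ℤ) : ℝ)| ≤ M := by
      have e1 : ((round ((N : ℝ) * t) : ℤ) : ℝ)
          = (N : ℝ) * t - ((N : ℝ) * t - round ((N : ℝ) * t)) := by ring
      rw [e1]
      refine (abs_sub _ _).trans ?_
      rw [hM]
      push_cast
      have e2 : |(N : ℝ) * t| ≤ N * R := by
        rw [abs_mul, abs_of_pos (by linarith)]
        exact mul_le_mul_of_nonneg_left ht1 (by linarith)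
      linarith
    have h3 : round ((N : ℝ) * t) ∈ Finset.Icc (-M) M := by
      rw [Finset.mem_Icc, ← abs_le]
      exact_mod_cast h2
    simp only [Set.mem_iUnion]
    refine ⟨_, h3, ?_⟩
    rw [Metric.mem_ball, Real.dist_eq]
    have hN0 : (0 : ℝ) < N := by linarith
    have e3 : t - ((round ((N : ℝ) * t) : ℤ) : ℝ) / N
        = ((N : ℝ) * t - round ((N : ℝ) * t)) / N := by
      field_simp
    rw [e3, abs_div, abs_of_pos hN0]
    exact div_lt_div_of_pos_right h1 hN0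
  refine (measure_mono hsub).trans ((measure_biUnion_finset_le _ _).trans ?_)
  simp only [Real.volume_ball]
  rw [Finset.sum_const, Int.card_Icc, nsmul_eq_mul]
  have h4 : (((M + 1 - -M).toNat : ℕ) : ℝ≥0∞) = ENNReal.ofReal (2 * M + 1) := by
    have e4 : ((M + 1 - -M).toNat : ℝ) = 2 * M + 1 := by
      have : (((M + 1 - -M).toNat : ℤ) : ℝ) = ((M + 1 - -M : ℤ) : ℝ) := by
        rw [Int.toNat_of_nonneg (by omega)]
      rw [Int.cast_natCast] at this
      rw [this]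
      push_cast
      ring
    rw [← e4, ENNReal.ofReal_natCast]
  rw [h4, ← ENNReal.ofReal_mul (by positivity)]
  apply ENNReal.ofReal_le_ofReal
  have hN0 : (0 : ℝ) < N := by linarith
  have hMr : (M : ℝ) = N * R + 1 := by rw [hM]; push_cast; ring
  rw [hMr]
  have e5 : (2 * ((N : ℝ) * R + 1) + 1) * (2 * (bet k / N)) = (2 * R + 3 / N) * (2 * bet k) := by
    field_simp
    ring
  rw [e5]
  have e6 : (3 : ℝ) / N ≤ 3 := div_le_self (by norm_num) hN1
  have e7 : bet k = (1 / 2) ^ k := rfl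
  rw [← e7]
  nlinarith

theorem ae_layer : ∀ᵐ t : ℝ, ∀ᶠ k in atTop, bet k ≤ dI (pw (k + 1) * t) := by
  have h1 : ∀ R : ℕ, ∀ᵐ t : ℝ, ∀ᶠ k in atTop, ¬ (|t| ≤ R ∧ dI (pw (k + 1) * t) < bet k) := by
    intro R
    have := ae_eventually_notMem (μ := (volume : Measure ℝ))
      (s := fun k => {t : ℝ | |t| ≤ R ∧ dI (pw (k + 1) * t) < bet k}) ?_
    · exact this
    · refine ne_top_of_le_ne_top ?_ (ENNReal.tsum_le_tsum (volume_layer R))
      have hs : Summable fun k : ℕ => 2 * (2 * (R : ℝ) + 3) * (1 / 2) ^ k :=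
        summable_geometric_two.mul_left _
      rw [← ENNReal.ofReal_tsum_of_nonneg (fun k => by positivity) hs]
      exact ENNReal.ofReal_ne_top
  filter_upwards [ae_all_iff.mpr h1] with t ht
  obtain ⟨R, hR⟩ := exists_nat_ge |t|
  filter_upwards [ht R] with k hk
  by_contra hcon
  push Not at hcon
  exact hk ⟨hR, hcon⟩

theorem ae_layer_pi : ∀ᵐ σ : Fin 5 → ℝ, ∀ᶠ k in atTop, ∀ i, bet k ≤ dI (pw (k + 1) * σ i) := by
  have h1 : ∀ i : Fin 5, ∀ᵐ σ : Fin 5 → ℝ, ∀ᶠ k in atTop, bet k ≤ dI (pw (k + 1) * σ i) := by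
    intro i
    exact (Measure.tendsto_eval_ae_ae (μ := fun _ : Fin 5 => (volume : Measure ℝ)) (i := i)).eventually
      ae_layer
  filter_upwards [ae_all_iff.mpr h1] with σ hσ
  exact eventually_all.mpr hσ

/-- The volume of a cell. -/
theorem volume_cell (k : ℕ) (q : Fin 5 → ℤ) :
    volume {σ : Fin 5 → ℝ | cell k σ = q} ≤ ENNReal.ofReal ((pw k)⁻¹ ^ 5) := by
  have hp := pw_pos k
  have hsub : {σ : Fin 5 → ℝ | cell k σ = q}
      ⊆ Set.pi Set.univ (fun i => Set.Ico ((q i : ℝ) / pw k) ((q i + 1 : ℝ) / pw k)) := by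
    intro σ hσ i _
    have h1 : ⌊pw k * σ i⌋ = q i := congrFun hσ i
    have h2 := Int.floor_eq_iff.mp h1
    constructor
    · rw [div_le_iff₀ hp]
      linarith [h2.1]
    · rw [lt_div_iff₀ hp]
      linarith [h2.2]
  refine (measure_mono hsub).trans ?_
  rw [volume_pi_pi]
  simp only [Real.volume_Ico]
  have h3 : ∀ i : Fin 5, ((q i : ℝ) + 1) / pw k - (q i : ℝ) / pw k = (pw k)⁻¹ := by
    intro i
    rw [← sub_div]
    ring
  simp only [h3, Finset.prod_const, Finset.card_univ, Fintype.card_fin]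
  rw [ENNReal.ofReal_pow (by positivity)]

theorem const_le (k : ℕ) : 16 / rr k ^ 2 * (pw k)⁻¹ ^ 5 ≤ 4096 := by
  have hp := pw_pos k
  have h1 : rr k = (pw k * pw k)⁻¹ * (1 / 4) ^ (k + 2) * (Real.exp (2 ^ (k + 1)))⁻¹ := by
    unfold rr rho
    rw [pw_succ, Real.exp_neg]
  have h2 : (1 / 4 : ℝ) ^ (k + 2) = (4 ^ (k + 2))⁻¹ := by
    rw [one_div, inv_pow]
  have h3 : 16 / rr k ^ 2 * (pw k)⁻¹ ^ 5
      = 16 * (4 ^ (k + 2)) ^ 2 * Real.exp (2 ^ (k + 1)) ^ 2 / pw k := by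
    rw [h1, h2]
    have := (Real.exp_pos (2 ^ (k + 1))).ne'
    field_simp
  rw [h3, div_le_iff₀ hp]
  have h4 : Real.exp (2 ^ (k + 1)) ≤ 9 ^ (2 ^ k) := by
    have e1 : Real.exp (2 ^ (k + 1)) = Real.exp 1 ^ (2 ^ (k + 1)) := by
      rw [← Real.exp_nat_mul]
      push_cast
      rw [mul_one]
    have e2 : (9 : ℝ) ^ (2 ^ k) = 3 ^ (2 ^ (k + 1)) := by
      rw [pow_succ 2 k, mul_comm (2 ^ k) 2, pow_mul]
      norm_num
    rw [e1, e2]
    apply pow_le_pow_left₀ (Real.exp_pos 1).le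
    have := Real.exp_one_lt_d9
    linarith
  have h5 : (4 : ℝ) ^ k ≤ 4 ^ (2 ^ k) :=
    pow_le_pow_right₀ (by norm_num) (Nat.lt_two_pow_self).le
  have h6 : pw k = (65536 : ℝ) ^ (2 ^ k) := by
    unfold pw
    have : (65536 : ℝ) = 2 ^ 16 := by norm_num
    rw [this, ← pow_mul]
    congr 1
    ring
  have h7 : (4 : ℝ) ^ k * Real.exp (2 ^ (k + 1)) ≤ 36 ^ (2 ^ k) := by
    calc (4 : ℝ) ^ k * Real.exp (2 ^ (k + 1)) ≤ 4 ^ (2 ^ k) * 9 ^ (2 ^ k) :=
          mul_le_mul h5 h4 (Real.exp_pos _).le (by positivity)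
      _ = 36 ^ (2 ^ k) := by rw [← mul_pow]; norm_num
  have h8 : ((4 : ℝ) ^ k * Real.exp (2 ^ (k + 1))) ^ 2 ≤ (36 ^ (2 ^ k)) ^ 2 :=
    pow_le_pow_left₀ (by positivity) h7 2
  have h9 : ((36 : ℝ) ^ (2 ^ k)) ^ 2 ≤ 65536 ^ (2 ^ k) := by
    rw [← pow_mul, mul_comm, pow_mul]
    exact pow_le_pow_left₀ (by norm_num) (by norm_num) _
  calc 16 * (4 ^ (k + 2)) ^ 2 * Real.exp (2 ^ (k + 1)) ^ 2
      = 4096 * (4 ^ k * Real.exp (2 ^ (k + 1))) ^ 2 := by ring
    _ ≤ 4096 * pw k := by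
        rw [h6]
        exact mul_le_mul_of_nonneg_left (h8.trans h9) (by norm_num)

theorem volume_large (k : ℕ) (z : (Fin 5 → ℤ) → ℝ) :
    volume {σ : Fin 5 → ℝ | rr k / 4 < z (cell k σ)}
      ≤ ∑' q : Fin 5 → ℤ, ENNReal.ofReal (4096 * z q ^ 2) := by
  have hsub : {σ : Fin 5 → ℝ | rr k / 4 < z (cell k σ)}
      ⊆ ⋃ q : Fin 5 → ℤ, {σ : Fin 5 → ℝ | cell k σ = q ∧ rr k / 4 < z q} := by
    intro σ hσ
    simp only [Set.mem_iUnion]
    exact ⟨cell k σ, rfl, hσ⟩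
  refine (measure_mono hsub).trans ((measure_iUnion_le _).trans (ENNReal.tsum_le_tsum fun q => ?_))
  by_cases hq : rr k / 4 < z q
  · have h1 : volume {σ : Fin 5 → ℝ | cell k σ = q ∧ rr k / 4 < z q}
        ≤ volume {σ : Fin 5 → ℝ | cell k σ = q} := measure_mono fun σ hσ => hσ.1
    refine (h1.trans (volume_cell k q)).trans (ENNReal.ofReal_le_ofReal ?_)
    have hr := rr_pos k
    have hp := pw_pos k
    have h2 : rr k ^ 2 / 16 ≤ z q ^ 2 := by
      have : (rr k / 4) ^ 2 ≤ z q ^ 2 := pow_le_pow_left₀ (by positivity) hq.le 2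
      linarith
    have h3 := const_le k
    have h4 : (pw k)⁻¹ ^ 5 ≤ 4096 * (rr k ^ 2 / 16) := by
      have e1 : (pw k)⁻¹ ^ 5 = (16 / rr k ^ 2 * (pw k)⁻¹ ^ 5) * (rr k ^ 2 / 16) := by
        field_simp
      rw [e1]
      exact mul_le_mul_of_nonneg_right h3 (by positivity)
    linarith
  · have h1 : {σ : Fin 5 → ℝ | cell k σ = q ∧ rr k / 4 < z q} = ∅ := by
      ext σ
      simp [hq]
    rw [h1, measure_empty]
    exact zero_le

theorem ae_small (z : ℕ × (Fin 5 → ℤ) → ℝ) (hs : Summable fun q => z q ^ 2) :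
    ∀ᵐ σ : Fin 5 → ℝ, ∀ᶠ k in atTop, z (k, cell k σ) ≤ rr k / 4 := by
  have := ae_eventually_notMem (μ := (volume : Measure (Fin 5 → ℝ)))
    (s := fun k => {σ : Fin 5 → ℝ | rr k / 4 < z (k, cell k σ)}) ?_
  · filter_upwards [this] with σ hσ
    filter_upwards [hσ] with k hk
    exact not_lt.mp hk
  · refine ne_top_of_le_ne_top ?_
      (ENNReal.tsum_le_tsum fun k => volume_large k (fun q => z (k, q)))
    rw [← ENNReal.tsum_prod (f := fun k q => ENNReal.ofReal (4096 * z (k, q) ^ 2))]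
    have hs' : Summable fun q => 4096 * z q ^ 2 := hs.mul_left _
    have h1 := ENNReal.ofReal_tsum_of_nonneg (fun q => by positivity) hs'
    have h2 : ∑' p : ℕ × (Fin 5 → ℤ), ENNReal.ofReal (4096 * z (p.1, p.2) ^ 2)
        = ENNReal.ofReal (∑' q, 4096 * z q ^ 2) := by
      rw [h1]
    rw [h2]
    exact ENNReal.ofReal_ne_top

/-- Null sets are preserved by invertible affine maps. -/
theorem ae_affine {P : (Fin 5 → ℝ) → Prop} (hP : ∀ᵐ σ, P σ) (s : Fin 5 → ℝ)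
    {v : Fin 5 → Fin 5 → ℝ} (hv : LinearIndependent ℝ v) :
    ∀ᵐ ξ : Fin 5 → ℝ, P (s + ∑ i, ξ i • v i) := by
  set L : (Fin 5 → ℝ) →ₗ[ℝ] (Fin 5 → ℝ) := Fintype.linearCombination ℝ v with hL
  have hdet : LinearMap.det L ≠ 0 := by
    intro h0
    have h1 := LinearMap.bot_lt_ker_of_det_eq_zero h0
    have h2 : LinearMap.ker L = ⊥ := by
      rw [LinearMap.ker_eq_bot]
      exact hv.fintypeLinearCombination_injective
    rw [h2] at h1
    exact lt_irrefl _ h1
  have h3 := Measure.LinearMap.quasiMeasurePreserving (volume : Measure (Fin 5 → ℝ)) L hdet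
  have h4 : Measure.QuasiMeasurePreserving (fun σ : Fin 5 → ℝ => s + σ) volume volume :=
    (measurePreserving_add_left volume s).quasiMeasurePreserving
  have h5 := (h4.comp h3).ae hP
  filter_upwards [h5] with ξ hξ
  have h6 : ((fun σ : Fin 5 → ℝ => s + σ) ∘ L) ξ = s + ∑ i, ξ i • v i := by
    simp [hL, Fintype.linearCombination_apply]
  rw [← h6]
  exact hξ

variable {H : Type*} [NormedAddCommGroup H] [InnerProductSpace ℝ H]

theorem sc_affine (e : Lab → H) (x : H) (w : Fin 5 → H) (ξ : Fin 5 → ℝ) :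
    sc e (x + ∑ i, ξ i • w i) = sc e x + ∑ i, ξ i • sc e (w i) := by
  funext j
  have h1 : (sc e x + ∑ i, ξ i • sc e (w i)) j = sc e x j + ∑ i, ξ i * sc e (w i) j := by
    simp [Finset.sum_apply]
  rw [h1]
  unfold sc
  rw [inner_add_right, inner_sum]
  simp only [inner_smul_right]

/-- Almost every point of a translate is good. -/
theorem ae_good {e : Lab → H} (he : Orthonormal ℝ e) (x : H) {w : Fin 5 → H}
    (hw : LinearIndependent ℝ fun i => sc e (w i)) :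
    ∀ᵐ ξ : Fin 5 → ℝ, ∃ k₀, Good e k₀ (x + ∑ i, ξ i • w i) := by
  set z : ℕ × (Fin 5 → ℤ) → ℝ := fun q => |⟪e (Sum.inr q), x⟫| + ∑ i, |⟪e (Sum.inr q), w i⟫|
    with hz
  have hsum : ∀ y : H, Summable fun q : ℕ × (Fin 5 → ℤ) => ⟪e (Sum.inr q), y⟫ ^ 2 := by
    intro y
    have h1 := he.inner_products_summable (x := y)
    have h2 := h1.comp_injective (i := (Sum.inr : ℕ × (Fin 5 → ℤ) → Lab)) Sum.inr_injective
    refine h2.congr fun q => ?_
    simp
  have hzs : Summable fun q => z q ^ 2 := by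
    have h1 : Summable fun q : ℕ × (Fin 5 → ℤ) =>
        2 * (⟪e (Sum.inr q), x⟫ ^ 2) + 10 * ∑ i, ⟪e (Sum.inr q), w i⟫ ^ 2 :=
      ((hsum x).mul_left _).add ((summable_sum fun i _ => hsum (w i)).mul_left _)
    refine Summable.of_nonneg_of_le (fun q => by positivity) (fun q => ?_) h1
    have h2 : (∑ i, |⟪e (Sum.inr q), w i⟫|) ^ 2 ≤ 5 * ∑ i, ⟪e (Sum.inr q), w i⟫ ^ 2 := by
      have := sq_sum_le_card_mul_sum_sq (s := Finset.univ)
        (f := fun i : Fin 5 => |⟪e (Sum.inr q), w i⟫|)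
      simpa using this
    have h3 : |⟪e (Sum.inr q), x⟫| ^ 2 = ⟪e (Sum.inr q), x⟫ ^ 2 := sq_abs _
    have h4 : z q ^ 2 ≤ 2 * (|⟪e (Sum.inr q), x⟫| ^ 2)
        + 2 * (∑ i, |⟪e (Sum.inr q), w i⟫|) ^ 2 := by
      change (|⟪e (Sum.inr q), x⟫| + ∑ i, |⟪e (Sum.inr q), w i⟫|) ^ 2 ≤ _
      nlinarith [sq_nonneg (|⟪e (Sum.inr q), x⟫| - ∑ i, |⟪e (Sum.inr q), w i⟫|)]
    linarith
  have hae1 : ∀ R : ℕ, ∀ᵐ σ : Fin 5 → ℝ, ∀ᶠ k in atTop,
      ((R : ℝ) + 1) * z (k, cell k σ) ≤ rr k / 4 := by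
    intro R
    apply ae_small (fun q => ((R : ℝ) + 1) * z q)
    simp only [mul_pow]
    exact hzs.mul_left _
  have hae2 := ae_affine (ae_all_iff.mpr hae1) (sc e x) hw
  have hae3 := ae_affine ae_layer_pi (sc e x) hw
  filter_upwards [hae2, hae3] with ξ h2 h3
  obtain ⟨R, hR⟩ := exists_nat_ge ‖ξ‖
  obtain ⟨k₀, hk₀⟩ := eventually_atTop.mp ((h2 R).and h3)
  refine ⟨k₀, fun k hk => ?_⟩
  obtain ⟨h4, h5⟩ := hk₀ k hk
  rw [sc_affine]
  refine ⟨?_, h5⟩
  refine le_trans ?_ h4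
  unfold Ev
  set q := (k, cell k (sc e x + ∑ i, ξ i • sc e (w i))) with hq
  rw [inner_add_right, inner_sum]
  simp only [inner_smul_right]
  have h6 : |∑ i, ξ i * ⟪e (Sum.inr q), w i⟫| ≤ ∑ i, (R : ℝ) * |⟪e (Sum.inr q), w i⟫| := by
    refine (Finset.abs_sum_le_sum_abs _ _).trans (Finset.sum_le_sum fun i _ => ?_)
    rw [abs_mul]
    apply mul_le_mul_of_nonneg_right _ (abs_nonneg _)
    exact ((norm_le_pi_norm ξ i).trans hR)
  have h7 : ((R : ℝ) + 1) * z q = |⟪e (Sum.inr q), x⟫| + ∑ i, |⟪e (Sum.inr q), w i⟫|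
      + (R * |⟪e (Sum.inr q), x⟫| + ∑ i, (R : ℝ) * |⟪e (Sum.inr q), w i⟫|) := by
    change ((R : ℝ) + 1) * (|⟪e (Sum.inr q), x⟫| + ∑ i, |⟪e (Sum.inr q), w i⟫|) = _
    rw [← Finset.mul_sum]
    ring
  rw [h7]
  have h8 : 0 ≤ ∑ i, |⟪e (Sum.inr q), w i⟫| := by positivity
  have h9 : 0 ≤ (R : ℝ) * |⟪e (Sum.inr q), x⟫| := by positivity
  refine (abs_add_le _ _).trans ?_
  linarith

section Borel

variable [MeasurableSpace H] [BorelSpace H]

omit [MeasurableSpace H] [BorelSpace H] in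
theorem continuous_sc (e : Lab → H) : Continuous (sc e) := by
  refine continuous_pi fun i => ?_
  exact continuous_const.inner continuous_id

theorem measurable_cell (e : Lab → H) (k : ℕ) : Measurable fun x => cell k (sc e x) := by
  refine measurable_pi_iff.mpr fun i => ?_
  have h1 : Measurable fun x : H => pw k * sc e x i :=
    (continuous_const.mul ((continuous_apply i).comp (continuous_sc e))).measurable
  exact Int.measurable_floor.comp h1

theorem continuous_dI : Continuous dI := by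
  rw [Metric.continuous_iff]
  intro b ε hε
  refine ⟨ε, hε, fun a ha => ?_⟩
  rw [Real.dist_eq] at ha ⊢
  exact (abs_dI_sub_dI a b).trans_lt ha

theorem measurableSet_good (e : Lab → H) : MeasurableSet {x : H | ∃ k₀, Good e k₀ x} := by
  have h0 : {x : H | ∃ k₀, Good e k₀ x} = ⋃ k₀ : ℕ, ⋂ k : ℕ, {x : H | k₀ ≤ k →
      |⟪Ev e k (sc e x), x⟫| ≤ rr k / 4 ∧ ∀ i, bet k ≤ dI (pw (k + 1) * sc e x i)} := by
    ext x
    simp only [Set.mem_ofPred_eq, Set.mem_iUnion, Set.mem_iInter, Good]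
  rw [h0]
  refine MeasurableSet.iUnion fun k₀ => MeasurableSet.iInter fun k => ?_
  by_cases hk : k₀ ≤ k
  · have h1 : {x : H | k₀ ≤ k → |⟪Ev e k (sc e x), x⟫| ≤ rr k / 4
        ∧ ∀ i, bet k ≤ dI (pw (k + 1) * sc e x i)}
        = (⋃ q : Fin 5 → ℤ, {x : H | cell k (sc e x) = q}
            ∩ {x : H | |⟪e (Sum.inr (k, q)), x⟫| ≤ rr k / 4})
          ∩ ⋂ i, {x : H | bet k ≤ dI (pw (k + 1) * sc e x i)} := by
      ext x
      simp only [hk, Set.mem_ofPred_eq, Set.mem_iUnion, Set.mem_iInter, Set.mem_inter_iff, Ev]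
      constructor
      · intro h
        exact ⟨⟨_, rfl, (h trivial).1⟩, (h trivial).2⟩
      · rintro ⟨⟨q, hq, h2⟩, h3⟩ _
        rw [hq]
        exact ⟨h2, h3⟩
    rw [h1]
    refine MeasurableSet.inter (MeasurableSet.iUnion fun q => MeasurableSet.inter ?_ ?_)
      (MeasurableSet.iInter fun i => ?_)
    · exact measurable_cell e k (measurableSet_singleton q)
    · exact (isClosed_le ((continuous_const.inner continuous_id).abs) continuous_const).measurableSet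
    · refine (isClosed_le continuous_const (continuous_dI.comp ?_)).measurableSet
      exact continuous_const.mul ((continuous_apply i).comp (continuous_sc e))
  · have h1 : {x : H | k₀ ≤ k → |⟪Ev e k (sc e x), x⟫| ≤ rr k / 4
        ∧ ∀ i, bet k ≤ dI (pw (k + 1) * sc e x i)} = Set.univ := by
      ext x
      simp [hk]
    rw [h1]
    exact MeasurableSet.univ

end Borel

end Pool.Agent.NSD
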