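import Mathlib
import Pool.Agent.NSD.Meas
import Pool.Agent.NSD.Aron

/-!
Existence of the orthonormal family and choice of directions.
-/

namespace Pool.Agent.NSD

open scoped RealInnerProductSpace
open MeasureTheory Filter Topology

variable {H : Type*} [NormedAddCommGroup H] [InnerProductSpace ℝ H]

/-- In an infinite-dimensional Hilbert space there are countable orthonormal families. -/
theorem exists_orthonormal [CompleteSpace H] (hH : ¬ FiniteDimensional ℝ H) :
    ∃ e : Lab → H, Orthonormal ℝ e := by
  obtain ⟨w, b, hb⟩ := exists_hilbertBasis ℝ H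
  have hinf : Infinite w := by
    by_contra hcon
    rw [not_infinite_iff_finite] at hcon
    apply hH
    have h1 := b.dense_span
    have h2 : FiniteDimensional ℝ (Submodule.span ℝ (Set.range b)) :=
      FiniteDimensional.span_of_finite ℝ (Set.finite_range _)
    have h3 : IsClosed (Submodule.span ℝ (Set.range b) : Set H) :=
      Submodule.closed_of_finiteDimensional _
    rw [IsClosed.submodule_topologicalClosure_eq h3] at h1
    rw [h1] at h2
    exact Module.Finite.equiv (Submodule.topEquiv : (⊤ : Submodule ℝ H) ≃ₗ[ℝ] H)
  have f1 : ℕ ↪ w := Infinite.natEmbedding w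
  obtain ⟨f2, hf2⟩ := exists_injective_nat Lab
  refine ⟨fun l => b (f1 (f2 l)), ?_⟩
  exact b.orthonormal.comp _ (f1.injective.comp hf2)

theorem sc_sum {e : Lab → H} (he : Orthonormal ℝ e) (σ : Fin 5 → ℝ) :
    sc e (∑ i, σ i • e (Sum.inl i)) = σ := by
  funext j
  unfold sc
  rw [inner_sum]
  simp only [inner_smul_right]
  rw [Finset.sum_eq_single j]
  · rw [real_inner_self_eq_norm_sq, he.1]
    simp
  · intro i _ hij
    rw [he.2 (by simpa using hij.symm), mul_zero]
  · intro h
    exact absurd (Finset.mem_univ j) h

/-- From a sequence with dense span one extracts five directions independent under `sc`. -/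
theorem exists_directions {e : Lab → H} (he : Orthonormal ℝ e) (u : ℕ → H)
    (hu : Dense (Submodule.span ℝ (Set.range u) : Set H)) :
    ∃ idx : Fin 5 → ℕ, LinearIndependent ℝ fun i => sc e (u (idx i)) := by
  let L : H →ₗ[ℝ] (Fin 5 → ℝ) :=
    { toFun := sc e
      map_add' := fun x y => by
        funext i
        simp [sc, inner_add_right]
      map_smul' := fun c x => by
        funext i
        simp [sc, inner_smul_right] }
  have hLc : Continuous L := continuous_sc e
  set S : Set (Fin 5 → ℝ) := Set.range fun n => sc e (u n) with hS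
  have h1 : Submodule.span ℝ S = (Submodule.span ℝ (Set.range u)).map L := by
    rw [Submodule.map_span, ← Set.range_comp]
    rfl
  have h2 : Submodule.span ℝ S = ⊤ := by
    rw [Submodule.eq_top_iff']
    intro σ
    have hcl : IsClosed (Submodule.span ℝ S : Set (Fin 5 → ℝ)) :=
      Submodule.closed_of_finiteDimensional _
    have h3 : L (∑ i, σ i • e (Sum.inl i)) = σ := sc_sum he σ
    have h4 : L (∑ i, σ i • e (Sum.inl i)) ∈ closure (L '' (Submodule.span ℝ (Set.range u) : Set H)) := by
      apply image_closure_subset_closure_image hLc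
      exact Set.mem_image_of_mem _ (hu _)
    rw [h3] at h4
    have h5 : L '' (Submodule.span ℝ (Set.range u) : Set H) = (Submodule.span ℝ S : Set (Fin 5 → ℝ)) := by
      rw [h1]
      rfl
    rw [h5, hcl.closure_eq] at h4
    exact h4
  obtain ⟨f, hf1, -, hf3⟩ := Submodule.exists_fun_fin_finrank_span_eq ℝ S
  have h6 : Module.finrank ℝ (Submodule.span ℝ S) = 5 := by
    rw [h2, finrank_top]
    simp
  have h7 : ∀ i : Fin 5, ∃ n : ℕ, sc e (u n) = f (Fin.cast h6.symm i) := fun i => hf1 _
  choose idx hidx using h7
  refine ⟨idx, ?_⟩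
  simp only [hidx]
  exact hf3.comp _ (Fin.cast_injective h6.symm)

end Pool.Agent.NSD
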