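import Mathlib
import Pool.Agent.NSD.Family

/-!
Two orthogonal copies of the construction, one of them inverted.
-/

namespace Pool.Agent.NSD

open scoped RealInnerProductSpace
open Filter Topology

variable {H : Type*} [NormedAddCommGroup H] [InnerProductSpace ℝ H]

/-- The closed span of the family. -/
noncomputable def Sp (e : Lab → H) : Submodule ℝ H :=
  (Submodule.span ℝ (Set.range e)).topologicalClosure

theorem mem_Sp (e : Lab → H) (l : Lab) : e l ∈ Sp e :=
  (Submodule.le_topologicalClosure _) (Submodule.subset_span ⟨l, rfl⟩)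

theorem fwd_sub_mem_Sp {e : Lab → H} (k n : ℕ) (x : H) :
    fwd (fun k => Tw e 1 k) k n x - x ∈ Sp e := by
  induction n generalizing x with
  | zero =>
    change x - x ∈ Sp e
    rw [sub_self]
    exact (Sp e).zero_mem
  | succ n ih =>
    change fwd (fun k => Tw e 1 k) k n (Tw e 1 (k + n) x) - x ∈ Sp e
    have h1 := ih (Tw e 1 (k + n) x)
    have h2 : Tw e 1 (k + n) x - x ∈ Sp e := Tw_sub_mem (mem_Sp e _) (mem_Sp e _) 1
    have h3 := (Sp e).add_mem h1 h2
    rwa [sub_add_sub_cancel] at h3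

variable {e : Lab → H} {X Y : ℕ → H → H}

theorem Lim.X_sub_mem (hL : Lim e X Y) (k : ℕ) (x : H) : X k x - x ∈ Sp e := by
  have hcl : IsClosed (Sp e : Set H) := Submodule.isClosed_topologicalClosure _
  have h1 : Tendsto (fun n => fwd (fun k => Tw e 1 k) k n x - x) atTop (𝓝 (X k x - x)) :=
    (hL.lim k x).sub tendsto_const_nhds
  exact hcl.mem_of_tendsto h1 (Eventually.of_forall fun n => fwd_sub_mem_Sp k n x)

theorem Lim.Y_sub_mem (hL : Lim e X Y) (k : ℕ) (y : H) : Y k y - y ∈ Sp e := by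
  have h1 := hL.X_sub_mem k (Y k y)
  rw [hL.XY] at h1
  have h2 := (Sp e).neg_mem h1
  rwa [neg_sub] at h2

theorem mem_Sp_orthogonal {f : Lab → H} {z : H} (h : ∀ l, ⟪f l, z⟫ = 0) : z ∈ (Sp f)ᗮ := by
  unfold Sp
  rw [Submodule.orthogonal_closure]
  rw [Submodule.mem_orthogonal]
  intro u hu
  induction hu using Submodule.span_induction with
  | mem x hx =>
    obtain ⟨l, rfl⟩ := hx
    exact h l
  | zero => exact inner_zero_left _
  | add x y _ _ hx hy => rw [inner_add_left, hx, hy, add_zero]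
  | smul a x _ hx => rw [inner_smul_left, hx, mul_zero]

/-- The second family does not move the first one. -/
theorem Lim.X_sub_mem_orthogonal (hL : Lim e X Y) (he : Orthonormal ℝ e) {f : Lab → H}
    (hfe : ∀ l m, ⟪f l, e m⟫ = 0) (k : ℕ) (x : H) : X k x - x ∈ (Sp f)ᗮ := by
  apply mem_Sp_orthogonal
  intro l
  rw [inner_sub_right, hL.inner_X he k x (f l) (fun j _ => hfe _ _), sub_self]

theorem Lim.Y_sub_mem_orthogonal (hL : Lim e X Y) (he : Orthonormal ℝ e) {f : Lab → H}
    (hfe : ∀ l m, ⟪f l, e m⟫ = 0) (k : ℕ) (y : H) : Y k y - y ∈ (Sp f)ᗮ := by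
  have h1 := hL.X_sub_mem_orthogonal he hfe k (Y k y)
  rw [hL.XY] at h1
  have h2 := (Sp f)ᗮ.neg_mem h1
  rwa [neg_sub] at h2

/-- Goodness only depends on the coordinates of the family. -/
theorem Good.congr {k₀ : ℕ} {x y : H} (hx : Good e k₀ x) (h : ∀ l, ⟪e l, y⟫ = ⟪e l, x⟫) :
    Good e k₀ y := by
  have hs : sc e y = sc e x := by
    funext i
    exact h _
  intro k hk
  have h1 := hx k hk
  rw [hs]
  refine ⟨?_, h1.2⟩
  have h2 : ⟪Ev e k (sc e x), y⟫ = ⟪Ev e k (sc e x), x⟫ := h _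
  rw [h2]
  exact h1.1

variable [CompleteSpace H]

/-- The inverse of the mixed map is not Gateaux differentiable at images of good points. -/
theorem mixed_not_lineDifferentiableAt {f : Lab → H} {X' Y' : ℕ → H → H}
    (hL : Lim e X Y) (he : Orthonormal ℝ e) (hL' : Lim f X' Y') (hf : Orthonormal ℝ f)
    (hef : ∀ l m, ⟪e l, f m⟫ = 0) {k₀ : ℕ} {x : H} (hx : Good e k₀ x) :
    ∃ v : H, ¬ LineDifferentiableAt ℝ (fun y => X' 0 (Y 0 y)) (X 0 (Y' 0 x)) v := by
  have hx' : Good e k₀ (Y' 0 x) := by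
    refine hx.congr fun l => ?_
    have h1 := hL'.inner_X hf 0 (Y' 0 x) (e l) (fun j _ => hef _ _)
    rw [hL'.XY] at h1
    exact h1.symm
  obtain ⟨v, hv⟩ := exists_not_lineDifferentiableAt hL he hx'
  refine ⟨v, fun hcon => hv ?_⟩
  set p := X 0 (Y' 0 x) with hp
  have hcl : IsClosed (Sp e : Set H) := Submodule.isClosed_topologicalClosure _
  haveI : CompleteSpace (Sp e) := hcl.completeSpace_coe
  set P : H →L[ℝ] H := (Sp e).starProjection with hP
  -- the formula for the first inverse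
  have key : ∀ q, Y 0 q = P (X' 0 (Y 0 q)) + (q - P q) := by
    intro q
    have h1 : P (X' 0 (Y 0 q) - Y 0 q) = 0 := by
      rw [hP, Submodule.starProjection_apply_eq_zero_iff]
      exact hL'.X_sub_mem_orthogonal hf hef 0 _
    have h2 : P (Y 0 q - q) = Y 0 q - q := by
      rw [hP, Submodule.starProjection_eq_self_iff]
      exact hL.Y_sub_mem 0 q
    rw [map_sub] at h1 h2
    have h3 : P (X' 0 (Y 0 q)) = P (Y 0 q) := sub_eq_zero.mp h1
    rw [h3]
    have h4 : P (Y 0 q) = Y 0 q - q + P q := by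
      rw [← h2]
      abel
    rw [h4]
    abel
  have h5 : (fun t : ℝ => Y 0 (p + t • v))
      = fun t : ℝ => P (X' 0 (Y 0 (p + t • v))) + ((p + t • v) - P (p + t • v)) := by
    funext t
    exact key _
  unfold LineDifferentiableAt at hcon ⊢
  rw [h5]
  have h6 : DifferentiableAt ℝ (fun t : ℝ => p + t • v) 0 := by fun_prop
  exact (P.differentiableAt.comp (0 : ℝ) hcon).add (h6.sub (P.differentiableAt.comp (0 : ℝ) h6))

end Pool.Agent.NSD
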