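import Mathlib
import Pool.Agent.NSD.Both

/-!
Aronszajn null sets, and the exceptional set of the construction.
-/

namespace Pool.Agent.NSD

open scoped RealInnerProductSpace
open MeasureTheory

/-- Aronszajn null sets: `E` is a Borel set and, for every sequence `u` whose linear span is
dense, `E` is a countable union of Borel sets `F n` such that `F n` meets every line in the
direction `u n` in a set of one-dimensional Lebesgue measure zero. -/
def AronszajnNull {X : Type*} [NormedAddCommGroup X] [NormedSpace ℝ X] (E : Set X) : Prop :=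
  MeasurableSet[borel X] E ∧
    ∀ u : ℕ → X, Dense (Submodule.span ℝ (Set.range u) : Set X) →
      ∃ F : ℕ → Set X, (∀ n, MeasurableSet[borel X] (F n)) ∧ E = ⋃ n, F n ∧
        ∀ n x, volume {t : ℝ | x + t • u n ∈ F n} = 0

/-- The set of points which are not good is Aronszajn null. -/
theorem aronszajnNull_bad {H : Type*} [NormedAddCommGroup H] [InnerProductSpace ℝ H]
    {e : Lab → H} (he : Orthonormal ℝ e) :
    AronszajnNull {x : H | ¬ ∃ k₀, Good e k₀ x} := by
  refine ⟨?_, ?_⟩
  · borelize H
    exact (measurableSet_good e).compl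
  · intro u hu
    obtain ⟨idx, hidx⟩ := exists_directions he u hu
    borelize H
    obtain ⟨F, hF1, hF2, hF3⟩ := decompose 5 (fun i => u (idx i))
      {x | ¬ ∃ k₀, Good e k₀ x} (measurableSet_good e).compl (fun x => by
        filter_upwards [ae_good he x hidx] with ξ hξ h
        exact h hξ)
    refine ⟨fun n => ⋃ i : Fin 5, ⋃ _ : idx i = n, F i, ?_, ?_, ?_⟩
    · intro n
      exact MeasurableSet.iUnion fun i => MeasurableSet.iUnion fun _ => hF1 i
    · rw [hF2]
      ext x
      simp only [Set.mem_iUnion]
      constructor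
      · rintro ⟨i, hi⟩
        exact ⟨idx i, i, rfl, hi⟩
      · rintro ⟨n, i, -, hi⟩
        exact ⟨i, hi⟩
    · intro n x
      have h1 : {t : ℝ | x + t • u n ∈ ⋃ i : Fin 5, ⋃ _ : idx i = n, F i}
          ⊆ ⋃ i : Fin 5, {t : ℝ | x + t • u (idx i) ∈ F i} := by
        intro t ht
        simp only [Set.mem_ofPred_eq, Set.mem_iUnion] at ht ⊢
        obtain ⟨i, hi, h⟩ := ht
        refine ⟨i, ?_⟩
        rw [hi]
        exact h
      refine measure_mono_null h1 ?_
      rw [measure_iUnion_null_iff]
      exact fun i => hF3 i x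

/-- Two orthogonal families in an infinite-dimensional Hilbert space. -/
theorem exists_two_families {H : Type*} [NormedAddCommGroup H] [InnerProductSpace ℝ H]
    [CompleteSpace H] (hH : ¬ FiniteDimensional ℝ H) :
    ∃ e f : Lab → H, Orthonormal ℝ e ∧ Orthonormal ℝ f ∧ ∀ l m, ⟪e l, f m⟫ = 0 := by
  obtain ⟨w, b, hb⟩ := exists_hilbertBasis ℝ H
  have hinf : Infinite w := by
    by_contra hcon
    rw [not_infinite_iff_finite] at hcon
    apply hH
    have h1 := b.dense_span
    have h2 : FiniteDimensional ℝ (Submodule.span ℝ (Set.range b)) :=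
      FiniteDimensional.span_of_finite ℝ (Set.finite_range _)
    have h3 : IsClosed (Submodule.span ℝ (Set.range b) : Set H) :=
      Submodule.closed_of_finiteDimensional _
    rw [IsClosed.submodule_topologicalClosure_eq h3] at h1
    rw [h1] at h2
    exact Module.Finite.equiv (Submodule.topEquiv : (⊤ : Submodule ℝ H) ≃ₗ[ℝ] H)
  have f1 : ℕ ↪ w := Infinite.natEmbedding w
  obtain ⟨f2, hf2⟩ := exists_injective_nat (Lab ⊕ Lab)
  have hinj : Function.Injective fun l : Lab ⊕ Lab => f1 (f2 l) := f1.injective.comp hf2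
  refine ⟨fun l => b (f1 (f2 (Sum.inl l))), fun l => b (f1 (f2 (Sum.inr l))), ?_, ?_, ?_⟩
  · exact b.orthonormal.comp _ (hinj.comp Sum.inl_injective)
  · exact b.orthonormal.comp _ (hinj.comp Sum.inr_injective)
  · intro l m
    apply b.orthonormal.2
    intro h
    exact absurd (hinj h) (by simp)

/-- If a Lipschitz map has a left inverse with an onto Gateaux derivative, it is Gateaux
differentiable. -/
theorem lineDifferentiableAt_inverse {H : Type*} [NormedAddCommGroup H] [NormedSpace ℝ H]
    {φ ψ : H → H} {K : ℝ} (hK : ∀ x y, ‖ψ x - ψ y‖ ≤ K * ‖x - y‖) (hψ : ∀ x, ψ (φ x) = x)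
    {x v : H} {A : H → H} (hA : ∀ v : H, HasLineDerivAt ℝ φ (A v) x v)
    (hsurj : Function.Surjective A) : LineDifferentiableAt ℝ ψ (φ x) v := by
  obtain ⟨g, hg⟩ := hsurj v
  have h1 := hA g
  rw [hg] at h1
  have h2 : HasLineDerivAt ℝ ψ g (φ x) v := by
    have h3 : HasDerivAt (fun t : ℝ => φ (x + t • g)) v 0 := h1
    have h4 : HasDerivAt (fun t : ℝ => ψ (φ x + t • v)) g 0 := by
      rw [hasDerivAt_iff_isLittleO_nhds_zero] at h3 ⊢
      have h5 : (fun t : ℝ => ψ (φ x + t • v) - ψ (φ (x + t • g)))
          =O[nhds 0] fun t : ℝ => φ (x + t • g) - φ x - t • v := by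
        refine Asymptotics.IsBigO.of_bound K (Filter.Eventually.of_forall fun t => ?_)
        refine (hK _ _).trans (le_of_eq ?_)
        congr 1
        rw [← norm_neg]
        congr 1
        abel
      have h6 : (fun t : ℝ => φ (x + t • g) - φ x - t • v) =o[nhds 0] fun t : ℝ => t := by
        simpa using h3
      have h7 := h5.trans_isLittleO h6
      refine h7.congr_left fun t => ?_
      rw [hψ, zero_add, zero_smul, add_zero, hψ]
      abel
    exact h4
  exact h2.lineDifferentiableAt

end Pool.Agent.NSD
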